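import Pool.Agent.Q291.BG.First

/-!
The order of growth of `k_c(d)`.
-/

namespace Q291.BG

open MeasureTheory Filter
open scoped ENNReal Asymptotics

/-- An explicit range of percolation. -/
theorem perc_range {d k : ℕ} (hd : 150 ≤ d) (hk : k ≤ d)
    (h : 4 * d ^ 2 ≤ (d - 2) * (k * (k - 1))) : 0 < theta d k := by
  have hd' : (150 : ℝ) ≤ d := by exact_mod_cast hd
  have hk4 : 4 ≤ k := by
    by_contra hc
    have h1 : k * (k - 1) ≤ 6 := by
      have : k ≤ 3 := by omega
      interval_cases k <;> simp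
    have h2 : (d - 2) * (k * (k - 1)) ≤ (d - 2) * 6 := Nat.mul_le_mul_left _ h1
    have h3 : (d - 2) * 6 ≤ d * 6 := Nat.mul_le_mul_right _ (by omega)
    nlinarith
  have hr : (4 : ℝ) * d ^ 2 ≤ (d - 2) * (k * (k - 1)) := by
    have := (Nat.cast_le (α := ℝ)).2 h
    rw [Nat.cast_mul, Nat.cast_mul, Nat.cast_mul, Nat.cast_sub (by omega),
      Nat.cast_sub (by omega)] at this
    push_cast at this
    exact this
  refine perc (cond_of (t := 1 - 2 / d) ?_ hd hk hk4 ?_ ?_)
  · have : (0 : ℝ) < 2 / d := by positivity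
    linarith
  · have e : (1 - 2 / (d : ℝ)) * (k * (k - 1)) = ((d - 2) * (k * (k - 1))) / d := by
      field_simp
    rw [e, le_div_iff₀ (by linarith)]
    nlinarith
  · have : (1 : ℝ) - (1 - 2 / d) = 2 / d := by ring
    rw [this]
    apply le_of_eq
    field_simp

theorem kc_bounds {ε : ℝ} (hε : 0 < ε) : ∀ᶠ d : ℕ in atTop,
    Real.sqrt 2 * Real.sqrt d ≤ kc d ∧ (kc d : ℝ) ≤ (2 + ε) * Real.sqrt d := by
  obtain ⟨e, he⟩ : ∃ e : ℝ, e = ε / 2 := ⟨_, rfl⟩
  have he0 : 0 < e := by rw [he]; linarith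
  have hsq : Tendsto (fun d : ℕ => Real.sqrt (d : ℝ)) atTop atTop :=
    Real.tendsto_sqrt_atTop.comp tendsto_natCast_atTop_atTop
  have ev1 := hsq.eventually_ge_atTop ((2 + e) / (3 * e))
  have ev2 := hsq.eventually_ge_atTop (2 + e + 1)
  have ev3 := hsq.eventually_ge_atTop (1 / e)
  have ev4 := (tendsto_natCast_atTop_atTop (R := ℝ)).eventually_ge_atTop (2 * (4 + e) / e)
  filter_upwards [ev1, ev2, ev3, ev4, eventually_ge_atTop 150] with d h1 h2 h3 h4 hd
  have hd' : (150 : ℝ) ≤ d := by exact_mod_cast hd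
  obtain ⟨s, hs⟩ : ∃ s : ℝ, s = Real.sqrt d := ⟨_, rfl⟩
  have hss : s * s = d := by rw [hs]; exact Real.mul_self_sqrt (by linarith)
  rw [← hs] at h1 h2 h3 ⊢
  have hs1 : 1 ≤ s := by linarith
  rw [div_le_iff₀ (by positivity)] at h1 h3
  obtain ⟨k, hk⟩ : ∃ k : ℕ, k = ⌈(2 + e) * s⌉₊ := ⟨_, rfl⟩
  have hk1 : (2 + e) * s ≤ k := by rw [hk]; exact Nat.le_ceil _
  have hk2 : (k : ℝ) ≤ (2 + e) * s + 1 := by
    rw [hk]; exact (Nat.ceil_lt_add_one (by positivity)).le
  have hkd : k ≤ d := by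
    have : (k : ℝ) ≤ d := by rw [← hss]; nlinarith
    exact_mod_cast this
  have hs12 : 12 ≤ s := by
    by_contra hc
    push Not at hc
    nlinarith
  have hk4 : 4 ≤ k := by
    have : (4 : ℝ) ≤ k := by nlinarith
    exact_mod_cast this
  have hperc : 0 < theta d k := by
    refine perc (cond_of (t := 4 / (4 + e)) ?_ hd hkd hk4 ?_ ?_)
    · rw [div_lt_one (by linarith)]; linarith
    · have h5 : ((2 + e) * s) * ((2 + e) * s - 1) ≤ k * (k - 1) := by
        have : (1 : ℝ) ≤ (2 + e) * s := by nlinarith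
        nlinarith
      have h6 : (4 + e) * d ≤ ((2 + e) * s) * ((2 + e) * s - 1) := by
        rw [← hss]
        have : (2 + e) * s ≤ 3 * e * (s * s) := by nlinarith
        nlinarith [mul_pos he0 he0, mul_self_nonneg s]
      have h7 : (4 + e) * d ≤ k * (k - 1) := h6.trans h5
      rw [div_mul_eq_mul_div, le_div_iff₀ (by linarith)]
      linarith
    · have : (1 : ℝ) - 4 / (4 + e) = e / (4 + e) := by field_simp; ring
      rw [this, div_div_eq_mul_div]
      exact h4
  have hmem : k ∈ {k | 1 ≤ k ∧ k ≤ 2 * d ∧ 0 < theta d k} := ⟨by omega, by omega, hperc⟩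
  constructor
  · have hmin : kc d ∈ {k | 1 ≤ k ∧ k ≤ 2 * d ∧ 0 < theta d k} := Nat.sInf_mem ⟨k, hmem⟩
    obtain ⟨g1, g2, g3⟩ := hmin
    have h5 : 2 * d ≤ kc d * (kc d - 1) := by
      by_contra hc
      push Not at hc
      rw [no_perc (by omega) g2 hc] at g3
      exact lt_irrefl _ g3
    have h6 : 2 * d ≤ kc d * kc d := h5.trans (Nat.mul_le_mul_left _ (by omega))
    have h7 : (2 : ℝ) * d ≤ kc d * kc d := by exact_mod_cast h6
    rw [hs, ← Real.sqrt_mul (by norm_num), Real.sqrt_le_left (by positivity), sq]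
    exact h7
  · have h5 : kc d ≤ k := Nat.sInf_le hmem
    have h6 : (kc d : ℝ) ≤ k := by exact_mod_cast h5
    have h7 : 1 ≤ s * e := h3
    calc (kc d : ℝ) ≤ (2 + e) * s + 1 := h6.trans hk2
      _ ≤ (2 + e) * s + s * e := by linarith
      _ = (2 + ε) * s := by rw [he]; ring

theorem kc_theta : (fun d : ℕ => (kc d : ℝ)) =Θ[atTop] fun d : ℕ => Real.sqrt d := by
  have h := kc_bounds (ε := 1) one_pos
  constructor
  · refine Asymptotics.IsBigO.of_bound 3 ?_
    filter_upwards [h] with d hd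
    rw [Real.norm_of_nonneg (by positivity), Real.norm_of_nonneg (by positivity)]
    have := hd.2
    norm_num at this
    linarith
  · refine Asymptotics.IsBigO.of_bound 1 ?_
    filter_upwards [h] with d hd
    rw [Real.norm_of_nonneg (by positivity), Real.norm_of_nonneg (by positivity), one_mul]
    have h1 : 1 ≤ Real.sqrt 2 := by
      rw [Real.one_le_sqrt]; norm_num
    have h2 := Real.sqrt_nonneg (d : ℝ)
    nlinarith [hd.1]

end Q291.BG
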