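import Pool.Agent.Q291.BG.Perc

/-!
First moment: no percolation of the `k`-BnG when `k (k - 1) < 2 d`.
-/

namespace Q291.BG

open MeasureTheory ProbabilityTheory Measure Finset
open scoped ENNReal

variable {d k : ℕ}

open Classical in
/-- There is a self-avoiding open continuation with `n` steps from `v`, which avoids `F`, and `v`
chooses the direction `b`. -/
def Ev (N : (Fin d → ℤ) → Finset (Dir d)) : ℕ → (Fin d → ℤ) → Dir d → Finset (Fin d → ℤ) → Prop
  | 0, v, b, _ => {b} ⊆ N v
  | n + 1, v, b, F => ∃ a : Dir d, a ≠ b ∧ nbr v a ∉ insert v F ∧ {b, a} ⊆ N v ∧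
      Ev N n (nbr v a) (opp a) (insert v F)

lemma Ev_meas (n : ℕ) (v : Fin d → ℤ) (b : Dir d) (F : Finset (Fin d → ℤ)) :
    MeasurableSet {N | Ev N n v b F} := by
  classical
  induction n generalizing v b F with
  | zero => exact incl_meas {b} v
  | succ n ih =>
    have : {N | Ev N (n + 1) v b F} = ⋃ a : Dir d, ({N | a ≠ b ∧ nbr v a ∉ insert v F} ∩
        ({N | {b, a} ⊆ N v} ∩ {N | Ev N n (nbr v a) (opp a) (insert v F)})) := by
      ext N
      simp only [Ev, Set.mem_ofPred_eq, Set.mem_iUnion, Set.mem_inter_iff]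
      refine exists_congr fun a => ?_
      tauto
    rw [this]
    exact MeasurableSet.iUnion fun a => (MeasurableSet.const _).inter
      ((incl_meas _ _).inter (ih _ _ _))

lemma Ev_dep (n : ℕ) (v : Fin d → ℤ) (b : Dir d) (F : Finset (Fin d → ℤ)) (hv : v ∉ F)
    {N N' : (Fin d → ℤ) → Finset (Dir d)} (h : ∀ w, w ∉ F → N w = N' w) (hE : Ev N n v b F) :
    Ev N' n v b F := by
  classical
  induction n generalizing v b F with
  | zero =>
    simp only [Ev] at hE ⊢
    rw [← h v hv]; exact hE
  | succ n ih =>
    simp only [Ev] at hE ⊢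
    obtain ⟨a, h1, h2, h3, h4⟩ := hE
    refine ⟨a, h1, h2, by rw [← h v hv]; exact h3, ?_⟩
    exact ih (nbr v a) (opp a) (insert v F) h2
      (fun w hw => h w fun h' => hw (mem_insert_of_mem h')) h4

lemma Ev_prob (hk : k ≤ 2 * d) (n : ℕ) (v : Fin d → ℤ) (b : Dir d) (F : Finset (Fin d → ℤ))
    (hv : v ∉ F) : law d k {N | Ev N n v b F} ≤
      ENNReal.ofReal (((2 * d - 1) * q d k 2) ^ n * q d k 1) := by
  classical
  have hd1 : (1 : ℝ) ≤ d := by
    have : 1 ≤ d := by
      rcases Nat.eq_zero_or_pos d with h | h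
      · exfalso; subst h; exact b.1.elim0
      · exact h
    exact_mod_cast this
  induction n generalizing v b F with
  | zero =>
    simp only [Ev, pow_zero, one_mul]
    rw [law_incl hk, card_singleton]
  | succ n ih =>
    have hsub : {N | Ev N (n + 1) v b F} ⊆ ⋃ a ∈ (univ : Finset (Dir d)).erase b,
        {N | a ≠ b ∧ nbr v a ∉ insert v F ∧ {b, a} ⊆ N v ∧
          Ev N n (nbr v a) (opp a) (insert v F)} := by
      intro N hN
      simp only [Ev, Set.mem_ofPred_eq] at hN
      obtain ⟨a, h⟩ := hN
      simp only [Set.mem_iUnion]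
      exact ⟨a, mem_erase.2 ⟨h.1, mem_univ _⟩, h⟩
    have hterm : ∀ a ∈ (univ : Finset (Dir d)).erase b,
        law d k {N | a ≠ b ∧ nbr v a ∉ insert v F ∧ {b, a} ⊆ N v ∧
          Ev N n (nbr v a) (opp a) (insert v F)} ≤
        ENNReal.ofReal (q d k 2 * (((2 * d - 1) * q d k 2) ^ n * q d k 1)) := by
      intro a ha
      have hab : a ≠ b := (mem_erase.1 ha).1
      by_cases hF : nbr v a ∉ insert v F
      · have h1 : {N : (Fin d → ℤ) → Finset (Dir d) | a ≠ b ∧ nbr v a ∉ insert v F ∧
            {b, a} ⊆ N v ∧ Ev N n (nbr v a) (opp a) (insert v F)} ⊆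
            {N | {b, a} ⊆ N v} ∩ {N | Ev N n (nbr v a) (opp a) (insert v F)} := by
          rintro N ⟨-, -, h3, h4⟩
          exact ⟨h3, h4⟩
        refine (measure_mono h1).trans ?_
        unfold law
        rw [Q291.GW.indep_dep _ (S := {v}) (T := {w | w ∉ insert v F}) ?_ (incl_meas _ _)
          (Ev_meas _ _ _ _) ?_ ?_]
        · change law d k _ * law d k _ ≤ _
          rw [law_incl hk, card_pair hab.symm, ENNReal.ofReal_mul (q_nonneg _ _ _)]
          gcongr
          exact ih _ _ _ hF
        · rw [Set.disjoint_left]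
          intro w h2 h3
          rw [Set.mem_singleton_iff] at h2
          rw [h2] at h3
          exact h3 (mem_insert_self _ _)
        · intro N N' h2 h3
          simp only [Set.mem_ofPred_eq] at h3 ⊢
          rw [← h2 v rfl]; exact h3
        · intro N N' h2 h3
          exact Ev_dep n _ _ _ hF (fun w hw => h2 w hw) h3
      · have : {N : (Fin d → ℤ) → Finset (Dir d) | a ≠ b ∧ nbr v a ∉ insert v F ∧
            {b, a} ⊆ N v ∧ Ev N n (nbr v a) (opp a) (insert v F)} = ∅ := by
          ext N; simp only [Set.mem_ofPred_eq, Set.mem_empty_iff_false, iff_false]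
          exact fun h => hF h.2.1
        rw [this]; simp
    refine (measure_mono hsub).trans ((measure_biUnion_finset_le _ _).trans ?_)
    refine (sum_le_sum hterm).trans ?_
    rw [sum_const, card_erase_of_mem (mem_univ _), card_univ, nsmul_eq_mul]
    have hcard : Fintype.card (Dir d) = 2 * d := by simp [mul_comm]
    rw [hcard, ← ENNReal.ofReal_natCast, ← ENNReal.ofReal_mul (by positivity)]
    apply ENNReal.ofReal_le_ofReal
    have hd1' : 1 ≤ d := by exact_mod_cast hd1
    have : (((2 * d - 1 : ℕ) : ℝ)) = 2 * d - 1 := by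
      rw [Nat.cast_sub (by omega)]; push_cast; ring
    rw [this]
    apply le_of_eq; ring

/-- A self-avoiding walk gives the event. -/
lemma Ev_of_walk {N : (Fin d → ℤ) → Finset (Dir d)} (n : ℕ) {v y : Fin d → ℤ}
    (p : (bng N).Walk v y) (hp : p.IsPath) (hn : n ≤ p.length) (b : Dir d)
    (hb : b ∈ N v) (F : Finset (Fin d → ℤ)) (hbF : nbr v b ∈ F)
    (hF : ∀ w ∈ p.support, w ∉ F) : Ev N n v b F := by
  classical
  induction n generalizing v b F with
  | zero =>
    simp only [Ev]
    simpa using hb
  | succ n ih =>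
    cases p with
    | nil => simp at hn
    | cons hadj p =>
      rename_i w
      rw [SimpleGraph.Walk.cons_isPath_iff] at hp
      rw [SimpleGraph.Walk.length_cons] at hn
      rw [SimpleGraph.Walk.support_cons] at hF
      obtain ⟨a, rfl, ha1, ha2⟩ := hadj
      have hvF : v ∉ F := hF v (by simp)
      have hwF : ∀ w ∈ p.support, w ∉ insert v F := by
        intro w hw
        rw [mem_insert, not_or]
        refine ⟨?_, hF w (by simp [hw])⟩
        rintro rfl
        exact hp.2 hw
      simp only [Ev]
      refine ⟨a, ?_, hwF _ p.start_mem_support, ?_, ?_⟩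
      · rintro rfl
        exact hwF _ p.start_mem_support (mem_insert_of_mem hbF)
      · intro z hz
        simp only [mem_insert, mem_singleton] at hz
        rcases hz with rfl | rfl
        · exact hb
        · exact ha1
      · refine ih p hp.1 (by omega) (opp a) ha2 (insert v F) ?_ hwF
        rw [nbr_opp]
        exact mem_insert_self _ _

lemma walk_bound {N : (Fin d → ℤ) → Finset (Dir d)} {v y : Fin d → ℤ}
    (p : (bng N).Walk v y) (i : Fin d) : |y i - v i| ≤ p.length := by
  induction p with
  | nil => simp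
  | cons h p ih =>
    rename_i u w z
    rw [SimpleGraph.Walk.length_cons]
    obtain ⟨a, rfl, -, -⟩ := h
    have h1 : |(nbr u a) i - u i| ≤ 1 := by
      unfold nbr un
      split_ifs
      · simp only [Pi.add_apply, Pi.single_apply, add_sub_cancel_left]
        split_ifs <;> simp
      · simp only [Pi.sub_apply, Pi.single_apply, sub_sub_cancel_left]
        split_ifs <;> simp
    have h2 : z i - u i = (z i - (nbr u a) i) + ((nbr u a) i - u i) := by ring
    rw [h2]
    push_cast
    exact (abs_add_le _ _).trans (add_le_add ih h1)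

lemma far_of_infinite {S : Set (Fin d → ℤ)} (h : S.Infinite) (n : ℕ) :
    ∃ y ∈ S, ∃ i, (n : ℤ) < |y i| := by
  by_contra hc
  push Not at hc
  apply h
  refine (Set.Finite.pi' (t := fun _ : Fin d => Set.Icc (-(n : ℤ)) n)
    fun _ => Set.finite_Icc _ _).subset ?_
  intro y hy i
  have := hc y hy i
  exact abs_le.1 this

theorem no_perc (hd : 1 ≤ d) (hk : k ≤ 2 * d) (h : k * (k - 1) < 2 * d) : theta d k = 0 := by
  classical
  have hd' : (1 : ℝ) ≤ d := by exact_mod_cast hd
  have hr : ((2 * d - 1) * q d k 2) < 1 := by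
    rw [q2_eq]
    have h3 : (0 : ℝ) < 2 * d - 1 := by linarith
    have h4 : (2 * d - 1 : ℝ) * (k * (k - 1) / (2 * d * (2 * d - 1))) = k * (k - 1) / (2 * d) := by
      field_simp
    rw [h4, div_lt_one (by linarith)]
    rcases Nat.eq_zero_or_pos k with h5 | h5
    · subst h5; simp; linarith
    · have : ((k * (k - 1) : ℕ) : ℝ) < ((2 * d : ℕ) : ℝ) := by exact_mod_cast h
      rw [Nat.cast_mul, Nat.cast_sub h5] at this
      push_cast at this
      exact this
  have hr0 : 0 ≤ ((2 * d - 1) * q d k 2) := by
    have := q_nonneg d k 2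
    have : (0 : ℝ) ≤ 2 * d - 1 := by linarith
    positivity
  have hb : ∀ n : ℕ, theta d k ≤ ENNReal.ofReal (2 * d * ((((2 * d - 1) * q d k 2) ^ n) *
      q d k 1)) := by
    intro n
    have hsub : {N : (Fin d → ℤ) → Finset (Dir d) | {y | (bng N).Reachable 0 y}.Infinite} ⊆
        ⋃ a ∈ (univ : Finset (Dir d)), {N | Ev N n (nbr 0 a) (opp a) {0}} := by
      intro N hN
      obtain ⟨y, hy, i, hi⟩ := far_of_infinite hN n
      obtain ⟨p, hp⟩ := (hy : (bng N).Reachable 0 y).exists_isPath
      have hlen : n < p.length := by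
        have := walk_bound p i
        simp only [Pi.zero_apply, sub_zero] at this
        have h3 := lt_of_lt_of_le hi this
        exact_mod_cast h3
      cases p with
      | nil => simp at hlen
      | cons hadj p =>
        rw [SimpleGraph.Walk.cons_isPath_iff] at hp
        rw [SimpleGraph.Walk.length_cons] at hlen
        obtain ⟨a, rfl, ha1, ha2⟩ := hadj
        simp only [Set.mem_iUnion]
        refine ⟨a, mem_univ _, ?_⟩
        refine Ev_of_walk n p hp.1 (by omega) (opp a) ha2 {0} ?_ ?_
        · rw [nbr_opp]; simp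
        · intro w hw hw0
          rw [mem_singleton] at hw0
          subst hw0
          exact hp.2 hw
    refine (measure_mono hsub).trans ((measure_biUnion_finset_le _ _).trans ?_)
    refine (sum_le_sum fun a _ => Ev_prob hk n (nbr 0 a) (opp a) {0} ?_).trans ?_
    · rw [mem_singleton]; exact nbr_ne 0 a
    · have hcard : Fintype.card (Dir d) = 2 * d := by simp [mul_comm]
      rw [sum_const, card_univ, hcard, nsmul_eq_mul, ← ENNReal.ofReal_natCast,
        ← ENNReal.ofReal_mul (by positivity)]
      push_cast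
      exact le_rfl
  have hlim : Filter.Tendsto (fun n : ℕ => ENNReal.ofReal (2 * d *
      ((((2 * d - 1) * q d k 2) ^ n) * q d k 1))) Filter.atTop (nhds 0) := by
    have h1 := tendsto_pow_atTop_nhds_zero_of_lt_one hr0 hr
    have h2 := (h1.mul_const (q d k 1)).const_mul (2 * d : ℝ)
    rw [zero_mul, mul_zero] at h2
    have h3 := ENNReal.tendsto_ofReal h2
    rwa [ENNReal.ofReal_zero] at h3
  exact le_antisymm (ge_of_tendsto' hlim hb) zero_le

end Q291.BG
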