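import Pool.Agent.Q291.BG.Pot
import Pool.Agent.Q291.GW.Indep

/-!
The bidirectional `k`-neighbor graph on `ℤ^d`.
-/

namespace Q291.BG

open MeasureTheory ProbabilityTheory Measure Finset
open scoped ENNReal

/-- The `2 d` directions: `(i, true)` is `+ e_i`, `(i, false)` is `- e_i`. -/
abbrev Dir (d : ℕ) := Fin d × Bool

/-- The neighbour of `x` in the direction `a`. -/
def nbr {d : ℕ} (x : Fin d → ℤ) (a : Dir d) : Fin d → ℤ :=
  if a.2 then x + un a.1 else x - un a.1

/-- The opposite direction. -/
def opp {d : ℕ} (a : Dir d) : Dir d := (a.1, !a.2)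

/-- The finite set of the subsets of directions is discrete. -/
instance (d : ℕ) : MeasurableSpace (Finset (Dir d)) := ⊤

instance (d : ℕ) : DiscreteMeasurableSpace (Finset (Dir d)) := ⟨fun _ => trivial⟩

/-- A uniformly random set of `k` directions (for `k ≤ 2 d`). -/
noncomputable def choice (d k : ℕ) : PMF (Finset (Dir d)) :=
  if h : (powersetCard k (univ : Finset (Dir d))).Nonempty then PMF.uniformOfFinset _ h
  else PMF.pure ∅

/-- The law of the choices of all the vertices: independent, uniform. -/
noncomputable def law (d k : ℕ) : Measure ((Fin d → ℤ) → Finset (Dir d)) :=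
  infinitePi fun _ => (choice d k).toMeasure

lemma un_ne {d : ℕ} (j : Fin d) : (un j : Fin d → ℤ) ≠ 0 := by
  intro h
  have := congrFun h j
  simp [un] at this

lemma nbr_ne {d : ℕ} (x : Fin d → ℤ) (a : Dir d) : nbr x a ≠ x := by
  unfold nbr
  split_ifs
  · simpa using un_ne a.1
  · simpa using un_ne a.1

lemma nbr_opp {d : ℕ} (x : Fin d → ℤ) (a : Dir d) : nbr (nbr x a) (opp a) = x := by
  unfold nbr opp
  rcases a with ⟨i, b⟩
  cases b <;> simp

lemma opp_opp {d : ℕ} (a : Dir d) : opp (opp a) = a := by simp [opp]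

/-- The bidirectional graph of the choices `N`: `x` and its neighbour `y` are joined when `x` chose
`y` and `y` chose `x`. -/
def bng {d : ℕ} (N : (Fin d → ℤ) → Finset (Dir d)) : SimpleGraph (Fin d → ℤ) where
  Adj x y := ∃ a : Dir d, y = nbr x a ∧ a ∈ N x ∧ opp a ∈ N y
  symm := ⟨by
    rintro x y ⟨a, rfl, h1, h2⟩
    exact ⟨opp a, (nbr_opp x a).symm, h2, by rw [opp_opp]; exact h1⟩⟩
  loopless := ⟨by
    rintro x ⟨a, h, -⟩
    exact nbr_ne x a h.symm⟩

/-- The probability that the origin lies in an infinite component of the `k`-BnG. -/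
noncomputable def theta (d k : ℕ) : ℝ≥0∞ :=
  law d k {N | {y | (bng N).Reachable 0 y}.Infinite}

/-- The smallest `k` for which the `k`-BnG on `ℤ^d` percolates. -/
noncomputable def kc (d : ℕ) : ℕ := sInf {k | 1 ≤ k ∧ k ≤ 2 * d ∧ 0 < theta d k}

/-- The probability that a given set of `t` directions is chosen. -/
noncomputable def q (d k t : ℕ) : ℝ := (k.choose t : ℝ) / ((2 * d).choose t)

lemma q_nonneg (d k t : ℕ) : 0 ≤ q d k t := by unfold q; positivity

instance (d k : ℕ) : IsProbabilityMeasure (law d k) := by unfold law; infer_instance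

lemma pincl {d k : ℕ} (hk : k ≤ 2 * d) (T : Finset (Dir d)) :
    (choice d k).toMeasure {S | T ⊆ S} = ENNReal.ofReal (q d k T.card) := by
  classical
  have hcard : Fintype.card (Dir d) = 2 * d := by simp [mul_comm]
  have hne : (powersetCard k (univ : Finset (Dir d))).Nonempty := by
    rw [powersetCard_nonempty, card_univ, hcard]; exact hk
  have hTd : T.card ≤ 2 * d := by
    rw [← hcard]; exact card_le_univ T
  unfold choice
  rw [dif_pos hne]
  have h1 : (PMF.uniformOfFinset _ hne).toMeasure {S | T ⊆ S} =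
      (((powersetCard k (univ : Finset (Dir d))).filter (T ⊆ ·)).card : ℝ≥0∞) /
        (powersetCard k (univ : Finset (Dir d))).card := by
    rw [PMF.toMeasure_uniformOfFinset_apply _ _
      (DiscreteMeasurableSpace.forall_measurableSet _)]
    congr!
  rw [h1, card_powersetCard, card_univ, hcard]
  have hpos : (0 : ℝ) < ((2 * d).choose k : ℝ) := by
    exact_mod_cast Nat.choose_pos hk
  have hpos2 : (0 : ℝ) < ((2 * d).choose T.card : ℝ) := by
    exact_mod_cast Nat.choose_pos hTd
  by_cases hT : T.card ≤ k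
  · rw [card_filter_powersetCard_subset T univ k (subset_univ T) hT, card_univ, hcard]
    have h2 := Nat.choose_mul (n := 2 * d) hT
    have h2' : ((2 * d).choose k : ℝ) * (k.choose T.card) =
        (2 * d).choose T.card * (2 * d - T.card).choose (k - T.card) := by exact_mod_cast h2
    unfold q
    rw [← ENNReal.ofReal_natCast, ← ENNReal.ofReal_natCast ((2 * d).choose k),
      ← ENNReal.ofReal_div_of_pos hpos]
    congr 1
    rw [div_eq_div_iff hpos.ne' hpos2.ne']
    linarith
  · have h3 : (powersetCard k (univ : Finset (Dir d))).filter (T ⊆ ·) = ∅ := by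
      rw [filter_eq_empty_iff]
      intro S hS hTS
      rw [mem_powersetCard] at hS
      exact hT (hS.2 ▸ card_le_card hTS)
    have h4 : k.choose T.card = 0 := Nat.choose_eq_zero_of_lt (by omega)
    rw [h3, card_empty]
    unfold q
    rw [h4]
    simp

/-- The probability that the vertex `v` chooses all the directions of `T`. -/
lemma law_incl {d k : ℕ} (hk : k ≤ 2 * d) (v : Fin d → ℤ) (T : Finset (Dir d)) :
    law d k {N | T ⊆ N v} = ENNReal.ofReal (q d k T.card) := by
  have h1 : {N : (Fin d → ℤ) → Finset (Dir d) | T ⊆ N v} = (fun N => N v) ⁻¹' {S | T ⊆ S} := rfl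
  have h2 : (law d k).map (fun N => N v) = (choice d k).toMeasure :=
    infinitePi_map_eval (fun _ : Fin d → ℤ => (choice d k).toMeasure) v
  rw [h1, ← Measure.map_apply (measurable_pi_apply v)
    (DiscreteMeasurableSpace.forall_measurableSet _), h2, pincl hk]

/-- Independence of functions of disjoint sets of vertices. -/
lemma indep_fun {ι X : Type*} [MeasurableSpace X] [Nonempty X] (μ : ι → Measure X)
    [∀ i, IsProbabilityMeasure (μ i)] {S T : Set ι} (hST : Disjoint S T)
    {f g : (ι → X) → ℝ≥0∞} (hf : Measurable f) (hg : Measurable g)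
    (df : ∀ a b : ι → X, (∀ i ∈ S, a i = b i) → f a = f b)
    (dg : ∀ a b : ι → X, (∀ i ∈ T, a i = b i) → g a = g b) :
    ∫⁻ N, f N * g N ∂infinitePi μ = (∫⁻ N, f N ∂infinitePi μ) * ∫⁻ N, g N ∂infinitePi μ := by
  have mf : ∀ (S : Set ι) (f : (ι → X) → ℝ≥0∞), Measurable f →
      (∀ a b : ι → X, (∀ i ∈ S, a i = b i) → f a = f b) →
      Measurable[Q291.GW.blk ι X S] f := by
    intro S f hf df s hs
    refine Q291.GW.meas_of_dep (hf hs) ?_
    intro a b hab ha
    have : f a = f b := df a b hab
    simp only [Set.mem_preimage] at ha ⊢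
    rw [← this]; exact ha
  exact lintegral_mul_eq_lintegral_mul_lintegral_of_independent_measurableSpace
    (Q291.GW.blk_le S) (Q291.GW.blk_le T) (Q291.GW.indep_blk μ hST) (mf S f hf df) (mf T g hg dg)

end Q291.BG
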