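import Pool.Agent.Q291.BG.Second

/-!
Percolation of the `k`-BnG for `k` larger than a constant times `√d`.
-/

namespace Q291.BG

open MeasureTheory ProbabilityTheory Measure Finset
open scoped ENNReal

variable {d k : ℕ} {A a x : ℝ}

/-- The number of oriented open paths with `n + 1` steps from the origin. -/
noncomputable def ZZ (n : ℕ) (N : (Fin d → ℤ) → Finset (Dir d)) : ℝ≥0∞ :=
  ∑ j, ch {(j, true)} 0 N * cn n (0 + un j) j N

lemma ZZ_meas (n : ℕ) : Measurable (ZZ (d := d) n) := by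
  unfold ZZ
  exact Finset.measurable_fun_sum _ fun j _ => (ch_meas _ _).mul (cn_meas _ _ _)

lemma ZZ_mean (hk : k ≤ 2 * d) (n : ℕ) : ∫⁻ N, ZZ n N ∂law d k =
    ENNReal.ofReal (d * q d k 1 * ((d * q d k 2) ^ n * q d k 1)) := by
  unfold ZZ
  rw [lintegral_finsetSum univ (f := fun j N => ch {(j, true)} 0 N * cn n (0 + un j) j N)
    fun j _ => (ch_meas _ _).mul (cn_meas _ _ _)]
  have h1 : ∀ j, ∫⁻ N, ch {(j, true)} (0 : Fin d → ℤ) N * cn n (0 + un j) j N ∂law d k =
      ENNReal.ofReal (q d k 1 * ((d * q d k 2) ^ n * q d k 1)) := by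
    intro j
    rw [indep_lev (lev (0 : Fin d → ℤ)) (ch_meas _ _) (cn_meas _ _ _)
      (fun a b hab => ch_dep _ _ (hab 0 rfl))
      (fun a b hab => cn_dep _ _ _ fun w hw => hab w (by rw [lev_add] at hw; omega)),
      ch_int hk, cn_mean hk, ENNReal.ofReal_mul (q_nonneg _ _ _), card_singleton]
  rw [sum_congr rfl fun j _ => h1 j, sum_const, card_univ, Fintype.card_fin, nsmul_eq_mul,
    ← ENNReal.ofReal_natCast, ← ENNReal.ofReal_mul (by positivity)]
  congr 1
  ring

lemma ZZ_sq (h : Cond d k A a x) (n : ℕ) : ∫⁻ N, ZZ n N * ZZ n N ∂law d k ≤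
    ENNReal.ofReal ((d * q d k 2) ^ (2 * n) * q d k 1 ^ 2 *
      (d * A + d ^ 2 * q d k 1 ^ 2 * (1 + a / (2 * d)))) := by
  have hd' : (150 : ℝ) ≤ d := by exact_mod_cast h.hd
  have hd0 : (0 : ℝ) < d := by linarith
  have hq1 := q_nonneg d k 1
  have hB : 0 ≤ (d * q d k 2) ^ (2 * n) * q d k 1 ^ 2 := by
    have := h.q2
    positivity
  have hexp : ∀ N, ZZ n N * ZZ n N = ∑ j, ∑ j',
      ch ({(j, true)} ∪ {(j', true)}) (0 : Fin d → ℤ) N *
      (cn n (0 + un j) j N * cn n (0 + un j') j' N) := by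
    intro N
    unfold ZZ
    rw [sum_mul_sum]
    refine sum_congr rfl fun j _ => sum_congr rfl fun j' _ => ?_
    rw [← ch_mul]
    ring
  have hmeas : ∀ j j', Measurable fun N : (Fin d → ℤ) → Finset (Dir d) =>
      ch ({(j, true)} ∪ {(j', true)}) (0 : Fin d → ℤ) N *
      (cn n (0 + un j) j N * cn n (0 + un j') j' N) := fun j j' =>
    (ch_meas _ _).mul ((cn_meas _ _ _).mul (cn_meas _ _ _))
  simp only [hexp]
  rw [lintegral_finsetSum univ (f := fun j N => ∑ j',
        ch ({(j, true)} ∪ {(j', true)}) (0 : Fin d → ℤ) N *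
      (cn n (0 + un j) j N * cn n (0 + un j') j' N))
      fun j _ => Finset.measurable_fun_sum _ fun j' _ => hmeas j j']
  have hterm : ∀ j j', ∫⁻ N, ch ({(j, true)} ∪ {(j', true)}) (0 : Fin d → ℤ) N *
      (cn n (0 + un j) j N * cn n (0 + un j') j' N) ∂law d k ≤
      ENNReal.ofReal ((d * q d k 2) ^ (2 * n) * q d k 1 ^ 2 *
        (q d k 1 ^ 2 * (1 + a / (2 * d)) + if j = j' then A else 0)) := by
    intro j j'
    rw [indep_lev (g := fun N => cn n (0 + un j) j N * cn n (0 + un j') j' N)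
        (lev (0 : Fin d → ℤ)) (ch_meas _ _) ((cn_meas _ _ _).mul (cn_meas _ _ _))
        (fun a b hab => ch_dep _ _ (hab 0 rfl)), ch_int h.hk]
    · have h1 := second h n (0 + un j) (0 + un j') j j' (by rw [lev_add, lev_add])
      refine (mul_le_mul' le_rfl h1).trans ?_
      rw [← ENNReal.ofReal_mul (q_nonneg _ _ _)]
      apply ENNReal.ofReal_le_ofReal
      have e : (0 : Fin d → ℤ) + un j' - (0 + un j) = un j' - un j := by abel
      rw [e]
      by_cases hj : j = j'
      · subst hj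
        rw [if_pos rfl, union_idempotent, card_singleton]
        have e : HH A a x ((un j : Fin d → ℤ) - un j) j j = A * x := by unfold HH; simp
        rw [e]
        have h2 := h.q1x
        have h3 := h.a0
        have e3 : q d k 1 * ((d * q d k 2) ^ (2 * n) * q d k 1 ^ 2 * (A * x)) =
            (d * q d k 2) ^ (2 * n) * q d k 1 ^ 2 * A := by
          linear_combination ((d * q d k 2) ^ (2 * n) * q d k 1 ^ 2 * A) * h2
        rw [e3]
        apply mul_le_mul_of_nonneg_left _ hB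
        have : 0 ≤ q d k 1 ^ 2 * (1 + a / (2 * d)) := by positivity
        linarith
      · rw [if_neg hj, add_zero]
        have e : HH A a x ((un j' : Fin d → ℤ) - un j) j j' = 1 + a / (2 * d) := by
          unfold HH
          rw [if_neg (fun h => hj h.2), psi_pair (Ne.symm hj)]
          ring
        have e2 : (({(j, true)} : Finset (Dir d)) ∪ {(j', true)}).card = 2 := by
          rw [singleton_union, card_pair]
          simpa using hj
        rw [e, e2]
        have h2 := h.h21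
        have h3 := h.a0
        calc q d k 2 * ((d * q d k 2) ^ (2 * n) * q d k 1 ^ 2 * (1 + a / (2 * d)))
            ≤ q d k 1 ^ 2 * ((d * q d k 2) ^ (2 * n) * q d k 1 ^ 2 * (1 + a / (2 * d))) := by
              apply mul_le_mul_of_nonneg_right h2
              have : 0 ≤ 1 + a / (2 * d) := by positivity
              positivity
          _ = _ := by ring
    · intro b c hbc
      rw [cn_dep n (0 + un j) j fun w hw => hbc w (by rw [lev_add] at hw; omega),
        cn_dep n (0 + un j') j' fun w hw => hbc w (by rw [lev_add] at hw; omega)]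
  have hnn : ∀ j j' : Fin d, 0 ≤ (d * q d k 2) ^ (2 * n) * q d k 1 ^ 2 *
      (q d k 1 ^ 2 * (1 + a / (2 * d)) + if j = j' then A else 0) := by
    intro j j'
    apply mul_nonneg hB
    have h3 := h.a0
    have h4 := h.A1
    have : 0 ≤ q d k 1 ^ 2 * (1 + a / (2 * d)) := by positivity
    have h5 : (0 : ℝ) ≤ if j = j' then A else 0 := by
      split_ifs
      · linarith
      · exact le_rfl
    linarith
  calc ∑ j, ∫⁻ N, ∑ j', ch ({(j, true)} ∪ {(j', true)}) (0 : Fin d → ℤ) N *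
      (cn n (0 + un j) j N * cn n (0 + un j') j' N) ∂law d k
      = ∑ j, ∑ j', ∫⁻ N, ch ({(j, true)} ∪ {(j', true)}) (0 : Fin d → ℤ) N *
      (cn n (0 + un j) j N * cn n (0 + un j') j' N) ∂law d k := by
        refine sum_congr rfl fun j _ => ?_
        exact lintegral_finsetSum univ fun j' _ => hmeas j j'
    _ ≤ ∑ j : Fin d, ∑ j' : Fin d, ENNReal.ofReal ((d * q d k 2) ^ (2 * n) * q d k 1 ^ 2 *
        (q d k 1 ^ 2 * (1 + a / (2 * d)) + if j = j' then A else 0)) :=
        sum_le_sum fun j _ => sum_le_sum fun j' _ => hterm j j'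
    _ = ENNReal.ofReal (∑ j : Fin d, ∑ j' : Fin d, (d * q d k 2) ^ (2 * n) * q d k 1 ^ 2 *
        (q d k 1 ^ 2 * (1 + a / (2 * d)) + if j = j' then A else 0)) := by
        rw [ENNReal.ofReal_sum_of_nonneg fun j _ => sum_nonneg fun j' _ => hnn j j']
        exact sum_congr rfl fun j _ =>
          (ENNReal.ofReal_sum_of_nonneg fun j' _ => hnn j j').symm
    _ ≤ _ := by
        apply ENNReal.ofReal_le_ofReal
        apply le_of_eq
        simp only [← mul_sum, sum_add_distrib, sum_const, card_univ, Fintype.card_fin,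
          nsmul_eq_mul, sum_ite_eq, mem_univ, if_true]
        ring

lemma cauchy {Ω : Type*} [MeasurableSpace Ω] (μ : Measure Ω) {Z : Ω → ℝ≥0∞} (hZ : Measurable Z) :
    (∫⁻ ω, Z ω ∂μ) ^ 2 ≤ (∫⁻ ω, Z ω * Z ω ∂μ) * μ {ω | Z ω ≠ 0} := by
  have hm : MeasurableSet {ω | Z ω ≠ 0} := (hZ (measurableSet_singleton 0)).compl
  let g : Ω → ℝ≥0∞ := Set.indicator {ω | Z ω ≠ 0} (fun _ => 1)
  have hg : Measurable g := measurable_const.indicator hm
  have h1 := ENNReal.lintegral_mul_le_Lp_mul_Lq μ Real.HolderConjugate.two_two hZ.aemeasurable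
    hg.aemeasurable
  have h2 : ∀ ω, (Z * g) ω = Z ω := by
    intro ω
    simp only [Pi.mul_apply, g, Set.indicator]
    split_ifs with h
    · simp
    · simp only [Set.mem_ofPred_eq, not_not] at h
      simp [h]
  have h3 : ∫⁻ ω, g ω ^ (2 : ℝ) ∂μ = μ {ω | Z ω ≠ 0} := by
    have : ∀ ω, g ω ^ (2 : ℝ) = g ω := by
      intro ω
      simp only [g, Set.indicator]
      split_ifs <;> simp
    simp only [this, g]
    rw [lintegral_indicator_const hm, one_mul]
  have h4 : ∫⁻ ω, Z ω ^ (2 : ℝ) ∂μ = ∫⁻ ω, Z ω * Z ω ∂μ := by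
    refine lintegral_congr fun ω => ?_
    rw [ENNReal.rpow_two, sq]
  simp only [h2] at h1
  rw [h3, h4] at h1
  calc (∫⁻ ω, Z ω ∂μ) ^ 2 ≤ ((∫⁻ ω, Z ω * Z ω ∂μ) ^ (1 / (2 : ℝ)) *
        μ {ω | Z ω ≠ 0} ^ (1 / (2 : ℝ))) ^ 2 := by gcongr
    _ = (∫⁻ ω, Z ω * Z ω ∂μ) * μ {ω | Z ω ≠ 0} := by
        rw [mul_pow, ← ENNReal.rpow_two, ← ENNReal.rpow_two, ← ENNReal.rpow_mul,
          ← ENNReal.rpow_mul]
        norm_num

lemma cn_ne_back (n : ℕ) (v : Fin d → ℤ) (i : Fin d) {N : (Fin d → ℤ) → Finset (Dir d)}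
    (h : cn n v i N ≠ 0) : (i, false) ∈ N v := by
  cases n with
  | zero => exact ch_ne h (mem_singleton_self _)
  | succ n =>
    simp only [cn] at h
    obtain ⟨j, -, hj⟩ := Finset.exists_ne_zero_of_sum_ne_zero h
    exact ch_ne (left_ne_zero_of_mul hj) (by simp)

lemma cn_reach (n : ℕ) (v : Fin d → ℤ) (i : Fin d) {N : (Fin d → ℤ) → Finset (Dir d)}
    (h : cn n v i N ≠ 0) : ∃ w, lev w = lev v + n ∧ (bng N).Reachable v w := by
  induction n generalizing v i with
  | zero => exact ⟨v, by simp, SimpleGraph.Reachable.refl v⟩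
  | succ n ih =>
    simp only [cn] at h
    obtain ⟨j, -, hj⟩ := Finset.exists_ne_zero_of_sum_ne_zero h
    have h1 := ch_ne (left_ne_zero_of_mul hj)
    have h2 := right_ne_zero_of_mul hj
    obtain ⟨w, hw, hr⟩ := ih (v + un j) j h2
    refine ⟨w, by rw [hw, lev_add]; push_cast; ring, ?_⟩
    refine SimpleGraph.Reachable.trans (SimpleGraph.Adj.reachable ?_) hr
    exact ⟨(j, true), by simp [nbr], h1 (by simp), cn_ne_back n _ _ h2⟩

lemma cn_anti (n : ℕ) (v : Fin d → ℤ) (i : Fin d) {N : (Fin d → ℤ) → Finset (Dir d)}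
    (h : cn (n + 1) v i N ≠ 0) : cn n v i N ≠ 0 := by
  induction n generalizing v i with
  | zero =>
    have := cn_ne_back _ _ _ h
    simp only [cn, ch]
    rw [Set.indicator_of_mem]
    · exact one_ne_zero
    · simpa using this
  | succ n ih =>
    rw [cn] at h
    obtain ⟨j, -, hj⟩ := Finset.exists_ne_zero_of_sum_ne_zero h
    have h2 := ih (v + un j) j (right_ne_zero_of_mul hj)
    rw [cn]
    intro h0
    rw [Finset.sum_eq_zero_iff] at h0
    have := h0 j (mem_univ j)
    exact mul_ne_zero (left_ne_zero_of_mul hj) h2 this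

lemma ZZ_anti (n : ℕ) {N : (Fin d → ℤ) → Finset (Dir d)} (h : ZZ (n + 1) N ≠ 0) :
    ZZ n N ≠ 0 := by
  unfold ZZ at h ⊢
  obtain ⟨j, -, hj⟩ := Finset.exists_ne_zero_of_sum_ne_zero h
  intro h0
  rw [Finset.sum_eq_zero_iff] at h0
  exact mul_ne_zero (left_ne_zero_of_mul hj) (cn_anti n _ _ (right_ne_zero_of_mul hj))
    (h0 j (mem_univ j))

lemma ZZ_reach (n : ℕ) {N : (Fin d → ℤ) → Finset (Dir d)} (h : ZZ n N ≠ 0) :
    ∃ w : Fin d → ℤ, lev w = n + 1 ∧ (bng N).Reachable 0 w := by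
  unfold ZZ at h
  obtain ⟨j, -, hj⟩ := Finset.exists_ne_zero_of_sum_ne_zero h
  have h1 := ch_ne (left_ne_zero_of_mul hj)
  have h2 := right_ne_zero_of_mul hj
  obtain ⟨w, hw, hr⟩ := cn_reach n _ _ h2
  have h0 : lev (0 : Fin d → ℤ) = 0 := by simp [lev]
  refine ⟨w, by rw [hw, lev_add, h0]; ring, ?_⟩
  refine SimpleGraph.Reachable.trans (SimpleGraph.Adj.reachable ?_) hr
  exact ⟨(j, true), by simp [nbr], h1 (by simp), cn_ne_back n _ _ h2⟩

theorem perc (h : Cond d k A a x) : 0 < theta d k := by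
  have hd' : (150 : ℝ) ≤ d := by exact_mod_cast h.hd
  have hd0 : (0 : ℝ) < d := by linarith
  have hq2 := h.q2
  have hA := h.A1
  have ha := h.a0
  have hq1 : 0 < q d k 1 := by
    have h1 := h.q1x
    have h2 := h.x0
    have h3 := q_nonneg d k 1
    rcases eq_or_lt_of_le h3 with h4 | h4
    · rw [← h4, zero_mul] at h1; norm_num at h1
    · exact h4
  obtain ⟨E, hE⟩ : ∃ E : ℝ, E = d * A + d ^ 2 * q d k 1 ^ 2 * (1 + a / (2 * d)) := ⟨_, rfl⟩
  have hE0 : 0 < E := by
    rw [hE]
    have : 0 ≤ d ^ 2 * q d k 1 ^ 2 * (1 + a / (2 * d)) := by positivity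
    have : 0 < d * A := by positivity
    linarith
  obtain ⟨δ, hδ⟩ : ∃ δ : ℝ, δ = d ^ 2 * q d k 1 ^ 2 / E := ⟨_, rfl⟩
  have hδ0 : 0 < δ := by rw [hδ]; positivity
  have hprob : ∀ n, ENNReal.ofReal δ ≤ law d k {N | ZZ n N ≠ 0} := by
    intro n
    have h1 := cauchy (law d k) (ZZ_meas (d := d) n)
    rw [ZZ_mean h.hk] at h1
    have h2 := h1.trans (mul_le_mul' (ZZ_sq h n) le_rfl)
    rw [← hE] at h2
    rw [← ENNReal.ofReal_pow (by positivity)] at h2
    have hB : 0 < (d * q d k 2) ^ (2 * n) * q d k 1 ^ 2 * E := by positivity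
    have h3 : (d * q d k 1 * ((d * q d k 2) ^ n * q d k 1)) ^ 2 =
        ((d * q d k 2) ^ (2 * n) * q d k 1 ^ 2 * E) * δ := by
      rw [hδ]
      field_simp
      ring
    rw [h3, ENNReal.ofReal_mul hB.le] at h2
    exact (ENNReal.mul_le_mul_iff_right (by simpa using hB) ENNReal.ofReal_ne_top).1 h2
  have hsub : (⋂ n, {N : (Fin d → ℤ) → Finset (Dir d) | ZZ n N ≠ 0}) ⊆
      {N | {y | (bng N).Reachable 0 y}.Infinite} := by
    intro N hN
    simp only [Set.mem_iInter, Set.mem_ofPred_eq] at hN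
    choose w hw hr using fun n => ZZ_reach n (hN n)
    refine Set.infinite_of_injective_forall_mem (f := w) ?_ hr
    intro m n hmn
    have : lev (w m) = lev (w n) := by rw [hmn]
    rw [hw, hw] at this
    omega
  have hlim : ENNReal.ofReal δ ≤ law d k (⋂ n, {N | ZZ n N ≠ 0}) := by
    refine ge_of_tendsto' (tendsto_measure_iInter_atTop (fun n => ?_) ?_
      ⟨0, measure_ne_top _ _⟩) hprob
    · exact ((ZZ_meas n) (measurableSet_singleton 0)).compl.nullMeasurableSet
    · refine antitone_nat_of_succ_le fun n N hN => ?_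
      exact ZZ_anti n hN
  calc (0 : ℝ≥0∞) < ENNReal.ofReal δ := by simpa using hδ0
    _ ≤ _ := hlim
    _ ≤ theta d k := measure_mono hsub

/-! ### numerical conditions -/

lemma q1_eq : q d k 1 = k / (2 * d) := by
  unfold q; simp

lemma q2_eq : q d k 2 = (k * (k - 1)) / (2 * d * (2 * d - 1)) := by
  unfold q
  rw [Nat.cast_choose_two, Nat.cast_choose_two]
  push_cast
  rw [div_div_div_cancel_right₀ (by norm_num)]

lemma choose_succ_real (n t : ℕ) (h : t ≤ n) :
    (n.choose (t + 1) : ℝ) = n.choose t * (n - t) / (t + 1) := by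
  have h1 := Nat.choose_succ_right_eq n t
  have h2 : (n.choose (t + 1) : ℝ) * (t + 1) = n.choose t * (n - t) := by
    have := congrArg (Nat.cast : ℕ → ℝ) h1
    push_cast [Nat.cast_sub h] at this
    exact this
  rw [eq_div_iff (by positivity), h2]

lemma q_succ (hk : k ≤ 2 * d) {t : ℕ} (ht : t < k) :
    q d k (t + 1) = q d k t * ((k - t) / (2 * d - t)) := by
  have h1 := choose_succ_real k t ht.le
  have h2 := choose_succ_real (2 * d) t (by omega)
  unfold q
  rw [h1, h2]
  have h3 : (0 : ℝ) < ((2 * d).choose t : ℝ) := by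
    exact_mod_cast Nat.choose_pos (by omega : t ≤ 2 * d)
  have h4 : (0 : ℝ) < 2 * d - t := by
    have : (t : ℝ) < 2 * d := by exact_mod_cast (by omega : t < 2 * d)
    linarith
  push_cast
  field_simp

theorem cond_of {t : ℝ} (ht1 : t < 1) (hd : 150 ≤ d) (hk : k ≤ d) (hk2 : 4 ≤ k)
    (hθ : 4 * (d : ℝ) ≤ t * (k * (k - 1))) (hdt : 2 / (1 - t) ≤ d) :
    Cond d k (2 / (1 - t)) (4 * t / (1 - t)) (2 * d / k) := by
  have hd' : (150 : ℝ) ≤ d := by exact_mod_cast hd
  have hd0 : (0 : ℝ) < d := by linarith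
  have hk' : (4 : ℝ) ≤ k := by exact_mod_cast hk2
  have hk0 : (0 : ℝ) < k := by linarith
  have hkd : (k : ℝ) ≤ d := by exact_mod_cast hk
  have ht : 0 < t := by
    by_contra h
    push Not at h
    have : t * (k * (k - 1)) ≤ 0 := by
      apply mul_nonpos_of_nonpos_of_nonneg h
      nlinarith
    linarith
  have h1t : 0 < 1 - t := by linarith
  have e1 : q d k 1 = k / (2 * d) := q1_eq
  have e2 : q d k 2 = (k * (k - 1)) / (2 * d * (2 * d - 1)) := q2_eq
  have e3 : q d k 3 = q d k 2 * ((k - 2) / (2 * d - 2)) := by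
    have := q_succ (d := d) (k := k) (by omega) (t := 2) (by omega)
    push_cast at this
    exact this
  have e4 : q d k 4 = q d k 3 * ((k - 3) / (2 * d - 3)) := by
    have := q_succ (d := d) (k := k) (by omega) (t := 3) (by omega)
    push_cast at this
    exact this
  have hq2 : 0 < q d k 2 := by
    rw [e2]
    have : (0 : ℝ) < k - 1 := by linarith
    have : (0 : ℝ) < 2 * d - 1 := by linarith
    positivity
  have hdq : 1 / (d * q d k 2) ≤ t := by
    rw [div_le_iff₀ (by positivity), e2]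
    have h3 : (0 : ℝ) < 2 * d - 1 := by linarith
    have h4 : t * (d * (k * (k - 1) / (2 * d * (2 * d - 1)))) =
        (t * (k * (k - 1))) / (2 * (2 * d - 1)) := by
      field_simp
    rw [h4, le_div_iff₀ (by positivity)]
    linarith
  refine ⟨hd, by omega, hq2, by positivity, ?_, ?_, ?_, ?_, ?_, by positivity, ?_, ?_⟩
  · rw [e1]; field_simp
  · rw [e1, e2, div_pow, div_le_div_iff₀ (by nlinarith) (by positivity)]
    have : 0 ≤ (k : ℝ) * (2 * d) * (2 * d - k) := by
      have : 0 ≤ 2 * (d : ℝ) - k := by linarith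
      positivity
    nlinarith
  · -- q3 ≤ q2^2 x
    have h2 : (k - 2 : ℝ) / (2 * d - 2) ≤ q d k 2 * (2 * d / k) := by
      rw [e2]
      have h3 : (0 : ℝ) < 2 * d - 1 := by linarith
      have h5 : (k * (k - 1) : ℝ) / (2 * d * (2 * d - 1)) * (2 * d / k) = (k - 1) / (2 * d - 1) := by
        field_simp
      rw [h5, div_le_div_iff₀ (by linarith) h3]
      nlinarith
    calc q d k 3 = q d k 2 * ((k - 2) / (2 * d - 2)) := e3
      _ ≤ q d k 2 * (q d k 2 * (2 * d / k)) := by gcongr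
      _ = _ := by ring
  · -- q4 ≤ q2^2
    have h2 : (k - 2 : ℝ) / (2 * d - 2) * ((k - 3) / (2 * d - 3)) ≤ q d k 2 := by
      rw [e2, div_mul_div_comm, div_le_div_iff₀ (by nlinarith) (by nlinarith)]
      have a1 : (k - 2 : ℝ) * (2 * d - 1) ≤ (k - 1) * (2 * d - 2) := by nlinarith
      have a2 : (k - 3 : ℝ) * (2 * d) ≤ k * (2 * d - 3) := by nlinarith
      calc (k - 2 : ℝ) * (k - 3) * (2 * d * (2 * d - 1))
          = ((k - 2) * (2 * d - 1)) * ((k - 3) * (2 * d)) := by ring
        _ ≤ ((k - 1) * (2 * d - 2)) * (k * (2 * d - 3)) := by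
            apply mul_le_mul a1 a2
            · have : (0 : ℝ) ≤ k - 3 := by linarith
              positivity
            · have : (0 : ℝ) ≤ k - 1 := by linarith
              have : (0 : ℝ) ≤ 2 * d - 2 := by linarith
              positivity
        _ = k * (k - 1) * ((2 * d - 2) * (2 * d - 3)) := by ring
    calc q d k 4 = q d k 2 * ((k - 2) / (2 * d - 2) * ((k - 3) / (2 * d - 3))) := by
          rw [e4, e3]; ring
      _ ≤ q d k 2 * q d k 2 := by gcongr
      _ = _ := by ring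
  · rw [le_div_iff₀ h1t]; linarith
  · -- cA
    have h2 : 4 * t / (1 - t) / (2 * d) ≤ 1 := by
      rw [div_le_iff₀ (by positivity), one_mul]
      have h3 : 4 * t / (1 - t) ≤ 2 * (2 / (1 - t)) := by
        rw [← mul_div_assoc, div_le_div_iff_of_pos_right h1t]
        linarith
      linarith
    have h3 : 2 / (1 - t) / (d * q d k 2) ≤ 2 / (1 - t) * t := by
      rw [div_eq_mul_one_div]
      gcongr
    have h4 : 1 + 1 + 2 / (1 - t) * t = 2 / (1 - t) := by
      field_simp
      ring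
    linarith
  · -- ca
    have h2 : (2 * d / k : ℝ) ^ 2 / d ≤ t := by
      rw [div_pow, div_div, div_le_iff₀ (by positivity)]
      have : t * (k * (k - 1)) ≤ t * k ^ 2 := by
        apply mul_le_mul_of_nonneg_left _ ht.le
        nlinarith
      nlinarith
    have h3 : 2 / (1 - t) * (2 * d / k : ℝ) ^ 2 / d ≤ 2 / (1 - t) * t := by
      rw [mul_div_assoc]
      gcongr
    have h4 : 4 * t / (1 - t) / (2 * d) ≤ 4 * t / (1 - t) / 2 := by
      gcongr
      linarith
    have h5 : 4 * t / (1 - t) / 2 + 2 / (1 - t) * t = 4 * t / (1 - t) := by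
      field_simp
      ring
    linarith

end Q291.BG
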