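import Mathlib

/-!
A superharmonic function for the difference of two oriented random walks in high dimension.
-/

namespace Q291.BG

open Finset

variable {d : ℕ}

/-- The unit vector. -/
def un (j : Fin d) : Fin d → ℤ := Pi.single j 1

/-- The squared norm. -/
def nsq (D : Fin d → ℤ) : ℤ := ∑ i, D i ^ 2

lemma nsq_nonneg (D : Fin d → ℤ) : 0 ≤ nsq D := sum_nonneg fun i _ => sq_nonneg (D i)

lemma nsq_eq_zero {D : Fin d → ℤ} : nsq D = 0 ↔ D = 0 := by
  unfold nsq
  rw [sum_eq_zero_iff_of_nonneg fun i _ => sq_nonneg (D i)]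
  constructor
  · intro h; ext i; simpa using h i (mem_univ i)
  · intro h i _; simp [h]

lemma nsq_step (D : Fin d → ℤ) {j j' : Fin d} (h : j ≠ j') :
    nsq (D + un j - un j') = nsq D + (2 + 2 * (D j - D j')) := by
  unfold nsq un
  have h1 : ∀ i, (D + Pi.single j 1 - Pi.single j' 1 : Fin d → ℤ) i ^ 2 =
      D i ^ 2 + ((if i = j then 2 * D i + 1 else 0) + (if i = j' then - 2 * D i + 1 else 0)) := by
    intro i
    simp only [Pi.add_apply, Pi.sub_apply, Pi.single_apply]
    by_cases h1 : i = j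
    · have h2 : i ≠ j' := fun h2 => h (h1.symm.trans h2)
      simp only [h1, if_true]
      rw [if_neg (fun h3 => h2 (h1.trans h3)), if_neg (fun h3 => h2 (h1.trans h3))]
      ring
    · by_cases h2 : i = j'
      · simp only [h2, if_true]
        rw [if_neg (fun h3 => h1 (h2.trans h3)), if_neg (fun h3 => h1 (h2.trans h3))]
        ring
      · simp [h1, h2]
  rw [sum_congr rfl fun i _ => h1 i, sum_add_distrib, sum_add_distrib, sum_ite_eq', sum_ite_eq']
  simp
  ring

/-- The potential. -/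
noncomputable def psi (D : Fin d → ℤ) : ℝ := if nsq D = 0 then d else 1 / (nsq D : ℝ)

lemma psi_nonneg (D : Fin d → ℤ) : 0 ≤ psi D := by
  unfold psi
  have := nsq_nonneg D
  split_ifs
  · positivity
  · have : (0 : ℝ) ≤ nsq D := by exact_mod_cast this
    positivity

/-- Elementary inequality. -/
lemma int_ineq {u v R : ℤ} (hR : 4 ≤ R) (h : u ^ 2 + v ^ 2 ≤ R) :
    R ≤ 6 * (R + (2 + 2 * (u - v))) := by
  have hu : u = -1 ∨ -4 ≤ 5 * u ^ 2 + 12 * u := by
    by_cases h1 : u ≤ -2
    · right; nlinarith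
    · by_cases h2 : u = -1
      · left; exact h2
      · right
        have : 0 ≤ u := by omega
        nlinarith
  have hv : v = 1 ∨ -4 ≤ 5 * v ^ 2 - 12 * v := by
    by_cases h1 : 2 ≤ v
    · right; nlinarith
    · by_cases h2 : v = 1
      · left; exact h2
      · right
        have : v ≤ 0 := by omega
        nlinarith
  have hu' : -7 ≤ 5 * u ^ 2 + 12 * u := by
    rcases hu with rfl | h1
    · norm_num
    · linarith
  have hv' : -7 ≤ 5 * v ^ 2 - 12 * v := by
    rcases hv with rfl | h1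
    · norm_num
    · linarith
  rcases hu with rfl | h1
  · rcases hv with rfl | h2
    · linarith
    · linarith
  · linarith

lemma two_le (D : Fin d → ℤ) {j j' : Fin d} (h : j ≠ j') : D j ^ 2 + D j' ^ 2 ≤ nsq D := by
  unfold nsq
  rw [← sum_pair (f := fun i => D i ^ 2) h]
  exact sum_le_sum_of_subset_of_nonneg (subset_univ _) fun i _ _ => sq_nonneg _

lemma sum_diff (D : Fin d → ℤ) : ∑ j : Fin d, ∑ j' : Fin d, (D j - D j' : ℝ) = 0 := by
  simp only [sum_sub_distrib, sum_const, card_univ, Fintype.card_fin, nsmul_eq_mul]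
  rw [← mul_sum]; ring

lemma sum_diff_sq {D : Fin d → ℤ} (hs : ∑ i, D i = 0) :
    ∑ j : Fin d, ∑ j' : Fin d, (D j - D j' : ℝ) ^ 2 = 2 * d * nsq D := by
  have hs' : ∑ i, (D i : ℝ) = 0 := by exact_mod_cast hs
  have h1 : ∀ j j' : Fin d, (D j - D j' : ℝ) ^ 2 =
      (D j : ℝ) ^ 2 - 2 * (D j * D j') + (D j' : ℝ) ^ 2 := fun j j' => by ring
  simp only [h1, sum_add_distrib, sum_sub_distrib, sum_const, card_univ, Fintype.card_fin,
    nsmul_eq_mul, ← mul_sum, ← sum_mul, hs']
  unfold nsq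
  push_cast
  ring

/-- The key one-term inequality for `nsq D ≥ 4`. -/
lemma term_le {D : Fin d → ℤ} (hR : 4 ≤ nsq D) {j j' : Fin d} (h : j ≠ j') :
    psi (D + un j - un j') ≤ 1 / nsq D - (2 + 2 * (D j - D j' : ℝ)) / (nsq D : ℝ) ^ 2 +
      (4 / (nsq D + 2) + 96 / nsq D * (D j - D j' : ℝ) ^ 2) / (nsq D : ℝ) ^ 2 := by
  obtain ⟨R, hRd⟩ : ∃ R : ℤ, R = nsq D := ⟨_, rfl⟩
  obtain ⟨Y, hY⟩ : ∃ Y : ℤ, Y = D j - D j' := ⟨_, rfl⟩
  have hYr : (D j - D j' : ℝ) = Y := by rw [hY]; push_cast; ring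
  rw [hYr]
  have hstep := nsq_step D h
  rw [← hY, ← hRd] at hstep
  rw [← hRd]
  rw [← hRd] at hR
  have hineq : R ≤ 6 * (R + (2 + 2 * Y)) := by
    rw [hY]
    exact int_ineq hR (by rw [hRd]; exact two_le D h)
  have hpos : 0 < R + (2 + 2 * Y) := by omega
  have hR0 : (0 : ℝ) < R := by exact_mod_cast (by omega : 0 < R)
  have hpos' : (0 : ℝ) < R + (2 + 2 * Y) := by exact_mod_cast hpos
  have hpsi : psi (D + un j - un j') = 1 / ((R : ℝ) + (2 + 2 * Y)) := by
    unfold psi
    rw [hstep, if_neg (by omega)]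
    push_cast; ring
  rw [hpsi]
  have hid : 1 / ((R : ℝ) + (2 + 2 * Y)) = 1 / R - (2 + 2 * Y) / (R : ℝ) ^ 2 +
      ((2 + 2 * Y) ^ 2 / (R + (2 + 2 * Y))) / (R : ℝ) ^ 2 := by
    have gen : ∀ R T : ℝ, R ≠ 0 → T ≠ 0 →
        1 / T = 1 / R - (T - R) / R ^ 2 + ((T - R) ^ 2 / T) / R ^ 2 := by
      intro R T h1 h2
      field_simp
      ring
    have := gen R (R + (2 + 2 * Y)) hR0.ne' hpos'.ne'
    rw [add_sub_cancel_left] at this
    exact this
  rw [hid]
  have hq : (2 + 2 * (Y : ℝ)) ^ 2 / (R + (2 + 2 * Y)) ≤ 4 / (R + 2) + 96 / R * (Y : ℝ) ^ 2 := by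
    by_cases hY0 : Y = 0
    · rw [hY0]; simp; norm_num
    · have h1 : (1 + Y) ^ 2 ≤ 4 * Y ^ 2 := by
        rcases lt_or_gt_of_ne hY0 with h2 | h2
        · nlinarith
        · nlinarith
      have h1' : (1 + (Y : ℝ)) ^ 2 ≤ 4 * (Y : ℝ) ^ 2 := by exact_mod_cast h1
      have h2 : (R : ℝ) ≤ 6 * (R + (2 + 2 * Y)) := by exact_mod_cast hineq
      have h3 : (2 + 2 * (Y : ℝ)) ^ 2 / (R + (2 + 2 * Y)) ≤ 96 / R * (Y : ℝ) ^ 2 := by
        rw [div_mul_eq_mul_div, div_le_div_iff₀ hpos' hR0]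
        have h4 : (2 + 2 * (Y : ℝ)) ^ 2 ≤ 16 * (Y : ℝ) ^ 2 := by nlinarith
        calc (2 + 2 * (Y : ℝ)) ^ 2 * R ≤ (16 * (Y : ℝ) ^ 2) * (6 * (R + (2 + 2 * Y))) := by
              gcongr
          _ = 96 * (Y : ℝ) ^ 2 * (R + (2 + 2 * Y)) := by ring
      have h5 : (0 : ℝ) ≤ 4 / (R + 2) := by positivity
      linarith
  have h6 : (0 : ℝ) < (R : ℝ) ^ 2 := by positivity
  have := div_le_div_of_nonneg_right hq h6.le
  linarith

lemma psi_big {D : Fin d → ℤ} (hd : 150 ≤ d) (hR : 4 ≤ nsq D) (hs : ∑ i, D i = 0) :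
    ∑ j : Fin d, ∑ j' : Fin d, psi (D + un j - un j') ≤ (d : ℝ) ^ 2 * psi D := by
  have hR0 : (4 : ℝ) ≤ nsq D := by exact_mod_cast hR
  have hd' : (150 : ℝ) ≤ d := by exact_mod_cast hd
  have hpsi : psi D = 1 / nsq D := by
    unfold psi; rw [if_neg (by omega)]
  have hterm : ∀ j j' : Fin d, psi (D + un j - un j') ≤
      (1 / nsq D - (2 + 2 * (D j - D j' : ℝ)) / (nsq D : ℝ) ^ 2 +
      (4 / (nsq D + 2) + 96 / nsq D * (D j - D j' : ℝ) ^ 2) / (nsq D : ℝ) ^ 2) +
      if j = j' then 2 / (nsq D : ℝ) ^ 2 else 0 := by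
    intro j j'
    by_cases h : j = j'
    · subst h
      rw [if_pos rfl, add_sub_cancel_right, hpsi, sub_self]
      have : (0 : ℝ) ≤ 4 / (nsq D + 2) / (nsq D : ℝ) ^ 2 := by positivity
      have e : (2 + 2 * (0 : ℝ)) / (nsq D : ℝ) ^ 2 = 2 / (nsq D : ℝ) ^ 2 := by ring
      have e2 : (4 / ((nsq D : ℝ) + 2) + 96 / nsq D * (0 : ℝ) ^ 2) / (nsq D : ℝ) ^ 2 =
        4 / (nsq D + 2) / (nsq D : ℝ) ^ 2 := by ring
      rw [e, e2]
      linarith
    · rw [if_neg h, add_zero]
      exact term_le hR h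
  refine (sum_le_sum fun j _ => sum_le_sum fun j' _ => hterm j j').trans ?_
  obtain ⟨R, hRd⟩ : ∃ R : ℝ, R = nsq D := ⟨_, rfl⟩
  have h1 : ∑ j : Fin d, ∑ j' : Fin d,
      ((1 / nsq D - (2 + 2 * (D j - D j' : ℝ)) / (nsq D : ℝ) ^ 2 +
      (4 / (nsq D + 2) + 96 / nsq D * (D j - D j' : ℝ) ^ 2) / (nsq D : ℝ) ^ 2) +
      if j = j' then 2 / (nsq D : ℝ) ^ 2 else 0) =
      (d : ℝ) ^ 2 * (1 / nsq D) - 2 * d ^ 2 / (nsq D : ℝ) ^ 2
        - 2 / (nsq D : ℝ) ^ 2 * (∑ j : Fin d, ∑ j' : Fin d, (D j - D j' : ℝ)) +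
      (d : ℝ) ^ 2 * (4 / (nsq D + 2)) / (nsq D : ℝ) ^ 2 +
      96 / nsq D / (nsq D : ℝ) ^ 2 * (∑ j : Fin d, ∑ j' : Fin d, (D j - D j' : ℝ) ^ 2) +
      d * (2 / (nsq D : ℝ) ^ 2) := by
    have e : ∀ j j' : Fin d, ((1 / nsq D - (2 + 2 * (D j - D j' : ℝ)) / (nsq D : ℝ) ^ 2 +
      (4 / (nsq D + 2) + 96 / nsq D * (D j - D j' : ℝ) ^ 2) / (nsq D : ℝ) ^ 2) +
      if j = j' then 2 / (nsq D : ℝ) ^ 2 else 0) =
      (1 / nsq D - 2 / (nsq D : ℝ) ^ 2 + 4 / (nsq D + 2) / (nsq D : ℝ) ^ 2) +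
      (- (2 / (nsq D : ℝ) ^ 2)) * (D j - D j' : ℝ) +
      (96 / nsq D / (nsq D : ℝ) ^ 2) * (D j - D j' : ℝ) ^ 2 +
      if j = j' then 2 / (nsq D : ℝ) ^ 2 else 0 := by
      intro j j'; ring
    simp only [e, sum_add_distrib, ← mul_sum, sum_const, card_univ, Fintype.card_fin,
      nsmul_eq_mul, sum_ite_eq, mem_univ, if_true]
    ring
  rw [h1, sum_diff, sum_diff_sq hs, hpsi, ← hRd]
  rw [← hRd] at hR0
  have hR1 : 0 < R := by linarith
  have h2 : 4 / (R + 2) ≤ 2 / 3 := by
    rw [div_le_div_iff₀ (by linarith) (by norm_num)]; linarith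
  have h3 : (d : ℝ) ^ 2 * (4 / (R + 2)) + 192 * d + 2 * d ≤ 2 * d ^ 2 := by
    have : (d : ℝ) ^ 2 * (4 / (R + 2)) ≤ (d : ℝ) ^ 2 * (2 / 3) := by gcongr
    nlinarith
  have h4 : (d : ℝ) ^ 2 * (1 / R) - 2 * d ^ 2 / R ^ 2 - 2 / R ^ 2 * 0 +
      (d : ℝ) ^ 2 * (4 / (R + 2)) / R ^ 2 + 96 / R / R ^ 2 * (2 * d * R) + d * (2 / R ^ 2) =
      (d : ℝ) ^ 2 * (1 / R) +
        ((d : ℝ) ^ 2 * (4 / (R + 2)) + 192 * d + 2 * d - 2 * d ^ 2) / R ^ 2 := by
    field_simp
    ring
  rw [h4]
  have h5 : ((d : ℝ) ^ 2 * (4 / (R + 2)) + 192 * d + 2 * d - 2 * d ^ 2) / R ^ 2 ≤ 0 := by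
    apply div_nonpos_of_nonpos_of_nonneg
    · linarith
    · positivity
  linarith

lemma nsq_self (a b : Fin d) (h : a ≠ b) : nsq (un a - un b) = 2 := by
  have := nsq_step (0 : Fin d → ℤ) h
  simp only [zero_add, Pi.zero_apply, sub_self, mul_zero, add_zero] at this
  rw [this]
  unfold nsq
  simp

lemma small_eq {D : Fin d → ℤ} (h0 : D ≠ 0) (hs : ∑ i, D i = 0) (hR : nsq D < 4) :
    ∃ a b : Fin d, a ≠ b ∧ D = un a - un b := by
  obtain ⟨a, ha⟩ : ∃ a, 0 < D a := by
    by_contra h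
    push Not at h
    apply h0
    have := (sum_eq_zero_iff_of_nonpos fun i _ => h i).1 hs
    ext i; exact this i (mem_univ i)
  obtain ⟨b, hb⟩ : ∃ b, D b < 0 := by
    by_contra h
    push Not at h
    apply h0
    have := (sum_eq_zero_iff_of_nonneg fun i _ => h i).1 hs
    ext i; exact this i (mem_univ i)
  have hab : a ≠ b := by rintro rfl; omega
  have hle := two_le D hab
  have ha1 : D a = 1 := by
    by_contra h
    have : 2 ≤ D a := by omega
    nlinarith
  have hb1 : D b = -1 := by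
    by_contra h
    have : D b ≤ -2 := by omega
    nlinarith
  refine ⟨a, b, hab, ?_⟩
  -- the remaining coordinates
  have hrest : ∀ i, i ≠ a → i ≠ b → D i = 0 := by
    intro i hia hib
    by_contra hi
    have h3 : D a ^ 2 + D b ^ 2 + D i ^ 2 ≤ nsq D := by
      have : ∑ x ∈ ({a, b, i} : Finset (Fin d)), D x ^ 2 ≤ nsq D :=
        sum_le_sum_of_subset_of_nonneg (subset_univ _) fun i _ _ => sq_nonneg _
      rw [sum_insert (by simp [hab, Ne.symm hia]), sum_insert (by simpa using Ne.symm hib),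
        sum_singleton] at this
      linarith
    have h4 : 1 ≤ D i ^ 2 := by
      have : 0 < D i ^ 2 := by positivity
      omega
    -- all the other coordinates vanish
    have h5 : ∀ x, x ≠ a → x ≠ b → x ≠ i → D x = 0 := by
      intro x hxa hxb hxi
      by_contra hx
      have h6 : 1 ≤ D x ^ 2 := by
        have : 0 < D x ^ 2 := by positivity
        omega
      have : ∑ y ∈ ({a, b, i, x} : Finset (Fin d)), D y ^ 2 ≤ nsq D :=
        sum_le_sum_of_subset_of_nonneg (subset_univ _) fun i _ _ => sq_nonneg _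
      rw [sum_insert (by simp [hab, Ne.symm hia, Ne.symm hxa]),
        sum_insert (by simp [Ne.symm hib, Ne.symm hxb]), sum_insert (by simpa using Ne.symm hxi),
        sum_singleton] at this
      rw [ha1, hb1] at this
      linarith
    have h7 : ∑ x, D x = ∑ x ∈ ({a, b, i} : Finset (Fin d)), D x := by
      symm
      apply sum_subset (subset_univ _)
      intro x _ hx
      simp only [mem_insert, mem_singleton, not_or] at hx
      exact h5 x hx.1 hx.2.1 hx.2.2
    rw [hs, sum_insert (by simp [hab, Ne.symm hia]), sum_insert (by simpa using Ne.symm hib),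
        sum_singleton, ha1, hb1] at h7
    omega
  ext i
  simp only [un, Pi.sub_apply, Pi.single_apply]
  by_cases hia : i = a
  · have : i ≠ b := fun h => hab (hia.symm.trans h)
    rw [if_pos hia, if_neg this, hia, ha1]; ring
  · by_cases hib : i = b
    · rw [if_neg hia, if_pos hib, hib, hb1]; ring
    · rw [if_neg hia, if_neg hib, hrest i hia hib]; ring

lemma psi_small (a b : Fin d) (hab : a ≠ b) (hd : 150 ≤ d) :
    ∑ j : Fin d, ∑ j' : Fin d, psi (un a - un b + un j - un j') ≤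
      (d : ℝ) ^ 2 * psi (un a - un b) := by
  have hd' : (150 : ℝ) ≤ d := by exact_mod_cast hd
  have hps : psi (un a - un b) = 1 / 2 := by
    unfold psi; rw [nsq_self a b hab]; norm_num
  have hterm : ∀ j j' : Fin d, psi (un a - un b + un j - un j') ≤
      1 / 4 + (if j = j' then 1 / 4 else 0) + ((if j = a then 1 / 4 else 0) +
        (if j = b then 1 / 4 else 0)) + ((if j' = a then 1 / 4 else 0) +
        (if j' = b then 1 / 4 else 0)) + (if j = b then (if j' = a then (d : ℝ) else 0) else 0) := by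
    intro j j'
    have i1 : (0 : ℝ) ≤ if j = j' then 1 / 4 else 0 := by split_ifs <;> norm_num
    have i2 : (0 : ℝ) ≤ if j = a then 1 / 4 else 0 := by split_ifs <;> norm_num
    have i3 : (0 : ℝ) ≤ if j = b then 1 / 4 else 0 := by split_ifs <;> norm_num
    have i4 : (0 : ℝ) ≤ if j' = a then 1 / 4 else 0 := by split_ifs <;> norm_num
    have i5 : (0 : ℝ) ≤ if j' = b then 1 / 4 else 0 := by split_ifs <;> norm_num
    have i6 : (0 : ℝ) ≤ if j = b then (if j' = a then (d : ℝ) else 0) else 0 := by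
      split_ifs <;> positivity
    by_cases hj : j = j'
    · subst hj
      rw [add_sub_cancel_right, hps]
      rw [if_pos rfl]
      linarith
    · have hst := nsq_step (un a - un b) hj
      rw [nsq_self a b hab] at hst
      have hDv : ∀ i : Fin d, (un a - un b) i = (if i = a then 1 else 0) - (if i = b then 1 else 0) := by
        intro i; simp [un, Pi.single_apply]
      have hda : (un a - un b) a = 1 := by rw [hDv]; simp [hab]
      have hdb : (un a - un b) b = -1 := by rw [hDv]; simp [Ne.symm hab]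
      have hdo : ∀ i, i ≠ a → i ≠ b → (un a - un b) i = 0 := by
        intro i h1 h2; rw [hDv]; simp [h1, h2]
      by_cases hjb : j = b
      · by_cases hja : j' = a
        · -- return to the origin
          have h0 : psi (un a - un b + un j - un j') = d := by
            unfold psi
            rw [hst, hjb, hja, hda, hdb]; norm_num
          have h6 : (if j = b then (if j' = a then (d : ℝ) else 0) else 0) = d := by
            rw [if_pos hjb, if_pos hja]
          rw [h0, h6]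
          linarith
        · have h2 : 2 ≤ nsq (un a - un b + un j - un j') := by
            rw [hst, hjb, hdb, hdo j' hja (fun h => hj (hjb.trans h.symm))]; norm_num
          have h3 : psi (un a - un b + un j - un j') ≤ 1 / 2 := by
            unfold psi
            rw [if_neg (by omega)]
            have : (2 : ℝ) ≤ nsq (un a - un b + un j - un j') := by exact_mod_cast h2
            gcongr
          have h4 : (if j = b then (1 / 4 : ℝ) else 0) = 1 / 4 := if_pos hjb
          linarith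
      · by_cases hja : j' = a
        · have h2 : 2 ≤ nsq (un a - un b + un j - un j') := by
            rw [hst, hja, hda, hdo j (fun h => hj (h.trans hja.symm)) hjb]; norm_num
          have h3 : psi (un a - un b + un j - un j') ≤ 1 / 2 := by
            unfold psi
            rw [if_neg (by omega)]
            have : (2 : ℝ) ≤ nsq (un a - un b + un j - un j') := by exact_mod_cast h2
            gcongr
          have h4 : (if j' = a then (1 / 4 : ℝ) else 0) = 1 / 4 := if_pos hja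
          linarith
        · have hj1 : 0 ≤ (un a - un b) j := by
            by_cases h : j = a
            · rw [h, hda]; norm_num
            · rw [hdo j h hjb]
          have hj2 : (un a - un b) j' ≤ 0 := by
            by_cases h : j' = b
            · rw [h, hdb]; norm_num
            · rw [hdo j' hja h]
          have h2 : 4 ≤ nsq (un a - un b + un j - un j') := by
            rw [hst]; linarith
          have h3 : psi (un a - un b + un j - un j') ≤ 1 / 4 := by
            unfold psi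
            rw [if_neg (by omega)]
            have : (4 : ℝ) ≤ nsq (un a - un b + un j - un j') := by exact_mod_cast h2
            gcongr
          linarith
  refine (sum_le_sum fun j _ => sum_le_sum fun j' _ => hterm j j').trans ?_
  simp only [sum_add_distrib, sum_const, card_univ, Fintype.card_fin, nsmul_eq_mul, sum_ite_eq,
    sum_ite_eq', mem_univ, if_true, sum_ite_irrel, mul_zero, mul_ite]
  rw [hps]
  nlinarith

theorem psi_super {D : Fin d → ℤ} (hd : 150 ≤ d) (h0 : D ≠ 0) (hs : ∑ i, D i = 0) :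
    ∑ j : Fin d, ∑ j' : Fin d, psi (D + un j - un j') ≤ (d : ℝ) ^ 2 * psi D := by
  by_cases hR : 4 ≤ nsq D
  · exact psi_big hd hR hs
  · obtain ⟨a, b, hab, rfl⟩ := small_eq h0 hs (by omega)
    exact psi_small a b hab hd

end Q291.BG
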