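import Pool.Agent.Q291.BG.Model

/-!
Second moment of the number of oriented open paths.
-/

namespace Q291.BG

open MeasureTheory ProbabilityTheory Measure Finset
open scoped ENNReal

variable {d : ℕ}

/-- The level of a vertex. -/
def lev (v : Fin d → ℤ) : ℤ := ∑ i, v i

lemma lev_add (v : Fin d → ℤ) (j : Fin d) : lev (v + un j) = lev v + 1 := by
  unfold lev un
  simp [sum_add_distrib, Finset.sum_pi_single']

/-- Indicator that `v` chooses all the directions of `T`. -/
noncomputable def ch (T : Finset (Dir d)) (v : Fin d → ℤ) (N : (Fin d → ℤ) → Finset (Dir d)) :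
    ℝ≥0∞ := Set.indicator {N : (Fin d → ℤ) → Finset (Dir d) | T ⊆ N v} (fun _ => 1) N

/-- The number of oriented continuations with `n` steps of a path which arrives at `v` by a step
in the direction `(i, true)`. -/
noncomputable def cn : ℕ → (Fin d → ℤ) → Fin d → ((Fin d → ℤ) → Finset (Dir d)) → ℝ≥0∞
  | 0, v, i, N => ch {(i, false)} v N
  | n + 1, v, i, N => ∑ j, ch {(i, false), (j, true)} v N * cn n (v + un j) j N

lemma incl_meas (T : Finset (Dir d)) (v : Fin d → ℤ) :
    MeasurableSet {N : (Fin d → ℤ) → Finset (Dir d) | T ⊆ N v} := by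
  have h : {N : (Fin d → ℤ) → Finset (Dir d) | T ⊆ N v} = (fun N => N v) ⁻¹' {S | T ⊆ S} := rfl
  rw [h]
  exact (measurable_pi_apply v) (DiscreteMeasurableSpace.forall_measurableSet _)

lemma ch_meas (T : Finset (Dir d)) (v : Fin d → ℤ) : Measurable (ch T v) := by
  unfold ch
  exact Measurable.indicator measurable_const (incl_meas T v)

lemma ch_dep (T : Finset (Dir d)) (v : Fin d → ℤ) {a b : (Fin d → ℤ) → Finset (Dir d)}
    (h : a v = b v) : ch T v a = ch T v b := by
  unfold ch
  simp only [Set.indicator, Set.mem_ofPred_eq, h]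

lemma ch_ne {T : Finset (Dir d)} {v : Fin d → ℤ} {N : (Fin d → ℤ) → Finset (Dir d)}
    (h : ch T v N ≠ 0) : T ⊆ N v := by
  by_contra hc
  apply h
  unfold ch
  rw [Set.indicator_of_notMem]
  exact hc

lemma ch_mul (T T' : Finset (Dir d)) (v : Fin d → ℤ) (N : (Fin d → ℤ) → Finset (Dir d)) :
    ch T v N * ch T' v N = ch (T ∪ T') v N := by
  unfold ch
  by_cases h1 : T ⊆ N v <;> by_cases h2 : T' ⊆ N v <;>
    simp [Set.indicator, h1, h2, union_subset_iff]

lemma ch_int {k : ℕ} (hk : k ≤ 2 * d) (T : Finset (Dir d)) (v : Fin d → ℤ) :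
    ∫⁻ N, ch T v N ∂law d k = ENNReal.ofReal (q d k T.card) := by
  unfold ch
  rw [lintegral_indicator_const (incl_meas T v), one_mul, law_incl hk]

lemma cn_meas (n : ℕ) (v : Fin d → ℤ) (i : Fin d) : Measurable (cn n v i) := by
  induction n generalizing v i with
  | zero => exact ch_meas _ _
  | succ n ih =>
    have : cn (n + 1) v i = fun N => ∑ j, ch {(i, false), (j, true)} v N * cn n (v + un j) j N :=
      rfl
    rw [this]
    exact Finset.measurable_fun_sum _ fun j _ => (ch_meas _ _).mul (ih _ _)

lemma cn_dep (n : ℕ) (v : Fin d → ℤ) (i : Fin d) {a b : (Fin d → ℤ) → Finset (Dir d)}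
    (h : ∀ w, lev v ≤ lev w → a w = b w) : cn n v i a = cn n v i b := by
  induction n generalizing v i with
  | zero => exact ch_dep _ _ (h v le_rfl)
  | succ n ih =>
    simp only [cn]
    refine sum_congr rfl fun j _ => ?_
    rw [ch_dep _ _ (h v le_rfl), ih (v + un j) j fun w hw => h w ?_]
    rw [lev_add] at hw; omega

/-- Independence of the choices at one level and of the higher levels. -/
lemma indep_lev {k : ℕ} (l : ℤ) {f g : ((Fin d → ℤ) → Finset (Dir d)) → ℝ≥0∞}
    (hf : Measurable f) (hg : Measurable g)
    (df : ∀ a b : (Fin d → ℤ) → Finset (Dir d), (∀ w, lev w = l → a w = b w) → f a = f b)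
    (dg : ∀ a b : (Fin d → ℤ) → Finset (Dir d), (∀ w, l < lev w → a w = b w) → g a = g b) :
    ∫⁻ N, f N * g N ∂law d k = (∫⁻ N, f N ∂law d k) * ∫⁻ N, g N ∂law d k := by
  refine indep_fun _ (S := {w | lev w = l}) (T := {w | l < lev w}) ?_ hf hg df dg
  rw [Set.disjoint_left]
  intro w h1 h2
  simp only [Set.mem_ofPred_eq] at h1 h2
  omega

/-- Two different vertices make independent choices. -/
lemma indep_two {k : ℕ} (hk : k ≤ 2 * d) {v v' : Fin d → ℤ} (h : v ≠ v')
    (T T' : Finset (Dir d)) : ∫⁻ N, ch T v N * ch T' v' N ∂law d k =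
      ENNReal.ofReal (q d k T.card * q d k T'.card) := by
  rw [ENNReal.ofReal_mul (q_nonneg _ _ _), ← ch_int hk T v, ← ch_int hk T' v']
  refine indep_fun _ (S := {v}) (T := {v'}) ?_ (ch_meas _ _) (ch_meas _ _) ?_ ?_
  · simpa using h
  · intro a b hab; exact ch_dep _ _ (hab v rfl)
  · intro a b hab; exact ch_dep _ _ (hab v' rfl)

lemma cn_mean {k : ℕ} (hk : k ≤ 2 * d) (n : ℕ) (v : Fin d → ℤ) (i : Fin d) :
    ∫⁻ N, cn n v i N ∂law d k = ENNReal.ofReal ((d * q d k 2) ^ n * q d k 1) := by
  induction n generalizing v i with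
  | zero =>
    simp only [cn, pow_zero, one_mul]
    rw [ch_int hk]; simp
  | succ n ih =>
    simp only [cn]
    rw [lintegral_finsetSum univ (f := fun j N => ch {(i, false), (j, true)} v N *
      cn n (v + un j) j N) fun j _ => (ch_meas _ _).mul (cn_meas _ _ _)]
    have h1 : ∀ j, ∫⁻ N, ch {(i, false), (j, true)} v N * cn n (v + un j) j N ∂law d k =
        ENNReal.ofReal (q d k 2 * ((d * q d k 2) ^ n * q d k 1)) := by
      intro j
      rw [indep_lev (lev v) (ch_meas _ _) (cn_meas _ _ _) (fun a b hab => ch_dep _ _ (hab v rfl))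
        (fun a b hab => cn_dep _ _ _ fun w hw => hab w (by rw [lev_add] at hw; omega)),
        ch_int hk, ih, ENNReal.ofReal_mul (q_nonneg _ _ _), card_pair (by simp)]
    rw [sum_congr rfl fun j _ => h1 j, sum_const, card_univ, Fintype.card_fin, nsmul_eq_mul,
      ← ENNReal.ofReal_natCast, ← ENNReal.ofReal_mul (by positivity)]
    congr 1
    ring

/-- The dominating function of the pair of paths. -/
noncomputable def HH (A a x : ℝ) (D : Fin d → ℤ) (i i' : Fin d) : ℝ :=
  if D = 0 ∧ i = i' then A * x else 1 + a / d * psi D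

lemma psi_zero : psi (0 : Fin d → ℤ) = d := by
  unfold psi
  rw [if_pos (nsq_eq_zero.2 rfl)]

lemma psi_pair {j j' : Fin d} (h : j' ≠ j) : psi (un j' - un j) = 1 / 2 := by
  unfold psi
  rw [nsq_self j' j h]; norm_num

/-- The numerical conditions. -/
structure Cond (d k : ℕ) (A a x : ℝ) : Prop where
  hd : 150 ≤ d
  hk : k ≤ 2 * d
  q2 : 0 < q d k 2
  x0 : 0 < x
  q1x : q d k 1 * x = 1
  h21 : q d k 2 ≤ q d k 1 ^ 2
  h3 : q d k 3 ≤ q d k 2 ^ 2 * x
  h4 : q d k 4 ≤ q d k 2 ^ 2
  A1 : 1 ≤ A
  a0 : 0 ≤ a
  cA : 1 + a / (2 * d) + A / (d * q d k 2) ≤ A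
  ca : a / (2 * d) + A * x ^ 2 / d ≤ a

section
variable {k : ℕ} {A a x : ℝ}

lemma HH_nonneg (h : Cond d k A a x) (D : Fin d → ℤ) (i i' : Fin d) : 0 ≤ HH A a x D i i' := by
  unfold HH
  have h1 := h.A1
  have h2 := h.x0
  have h3 := h.a0
  have h4 := psi_nonneg D
  split_ifs
  · positivity
  · positivity

/-- The weight of a pair of steps at a pair of vertices with difference `D`. -/
noncomputable def wt (k : ℕ) (D : Fin d → ℤ) (i i' j j' : Fin d) : ℝ :=
  if D = 0 then q d k (({(i, false), (j, true)} : Finset (Dir d)) ∪ {(i', false), (j', true)}).card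
  else q d k 2 * q d k 2

lemma wt_nonneg (D : Fin d → ℤ) (i i' j j' : Fin d) : 0 ≤ wt k D i i' j j' := by
  unfold wt
  split_ifs
  · exact q_nonneg _ _ _
  · exact mul_nonneg (q_nonneg _ _ _) (q_nonneg _ _ _)

lemma card4 {i i' j j' : Fin d} (h : i ≠ i') (h' : j ≠ j') :
    (({(i, false), (j, true)} : Finset (Dir d)) ∪ {(i', false), (j', true)}).card = 4 := by
  rw [card_union_of_disjoint, card_pair (by simp), card_pair (by simp)]
  rw [Finset.disjoint_left]
  intro y hy hy'
  simp only [mem_insert, mem_singleton] at hy hy'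
  rcases hy with rfl | rfl <;> simp_all

lemma card3a {i i' j : Fin d} (h : i ≠ i') :
    (({(i, false), (j, true)} : Finset (Dir d)) ∪ {(i', false), (j, true)}).card = 3 := by
  have : (({(i, false), (j, true)} : Finset (Dir d)) ∪ {(i', false), (j, true)}) =
      {(i, false), (i', false), (j, true)} := by
    ext y; simp; tauto
  rw [this, card_insert_of_notMem (by simp [h]), card_pair (by simp)]

lemma card3b {i j j' : Fin d} (h : j ≠ j') :
    (({(i, false), (j, true)} : Finset (Dir d)) ∪ {(i, false), (j', true)}).card = 3 := by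
  have : (({(i, false), (j, true)} : Finset (Dir d)) ∪ {(i, false), (j', true)}) =
      {(i, false), (j, true), (j', true)} := by
    ext y; simp
  rw [this, card_insert_of_notMem (by simp), card_pair (by simpa using h)]

lemma card2 {i j : Fin d} :
    (({(i, false), (j, true)} : Finset (Dir d)) ∪ {(i, false), (j, true)}).card = 2 := by
  rw [union_idempotent, card_pair (by simp)]

/-- The function `HH` is superharmonic for the weights. -/
theorem super (h : Cond d k A a x) {D : Fin d → ℤ} (hs : ∑ i, D i = 0) (i i' : Fin d) :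
    ∑ j, ∑ j', wt k D i i' j j' * HH A a x (D + un j' - un j) j j' ≤
      (d * q d k 2) ^ 2 * HH A a x D i i' := by
  obtain ⟨hd, -, hq2, hx0, -, -, h3, h4, hA1, ha0, hcA, hca⟩ := h
  have hd' : (150 : ℝ) ≤ d := by exact_mod_cast hd
  have hd0 : (0 : ℝ) < d := by linarith
  by_cases hD : D = 0
  · subst hD
    have hterm : ∀ (w3 w4 : ℝ), (∀ j j' : Fin d, j ≠ j' → wt k (0 : Fin d → ℤ) i i' j j' ≤ w4) →
        (∀ j : Fin d, wt k (0 : Fin d → ℤ) i i' j j ≤ w3) →
        0 ≤ w3 → 0 ≤ w4 →
        ∑ j, ∑ j', wt k (0 : Fin d → ℤ) i i' j j' * HH A a x (0 + un j' - un j) j j' ≤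
          d ^ 2 * (w4 * (1 + a / (2 * d))) + d * (w3 * (A * x)) := by
      intro w3 w4 hw4 hw3 hw30 hw40
      have : ∀ j j' : Fin d, wt k (0 : Fin d → ℤ) i i' j j' * HH A a x (0 + un j' - un j) j j' ≤
          w4 * (1 + a / (2 * d)) + if j = j' then w3 * (A * x) else 0 := by
        intro j j'
        by_cases hj : j = j'
        · subst hj
          rw [if_pos rfl]
          have e : HH A a x ((0 : Fin d → ℤ) + un j - un j) j j = A * x := by
            unfold HH; simp
          rw [e]
          have i1 : wt k (0 : Fin d → ℤ) i i' j j * (A * x) ≤ w3 * (A * x) :=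
            mul_le_mul_of_nonneg_right (hw3 j) (by positivity)
          have i2 : 0 ≤ w4 * (1 + a / (2 * d)) := by positivity
          linarith
        · rw [if_neg hj, add_zero]
          have e : HH A a x ((0 : Fin d → ℤ) + un j' - un j) j j' = 1 + a / (2 * d) := by
            unfold HH
            rw [if_neg (fun h => hj h.2), zero_add, psi_pair (Ne.symm hj)]
            ring
          rw [e]
          exact mul_le_mul_of_nonneg_right (hw4 j j' hj) (by positivity)
      refine (sum_le_sum fun j _ => sum_le_sum fun j' _ => this j j').trans (le_of_eq ?_)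
      simp only [sum_add_distrib, sum_const, card_univ, Fintype.card_fin, nsmul_eq_mul,
        sum_ite_eq, mem_univ, if_true]
      ring
    by_cases hi : i = i'
    · subst hi
      refine (hterm (q d k 2) (q d k 3) ?_ ?_ (q_nonneg _ _ _) (q_nonneg _ _ _)).trans ?_
      · intro j j' hj
        unfold wt
        rw [if_pos rfl, card3b hj]
      · intro j
        unfold wt
        rw [if_pos rfl, card2]
      · have e : HH A a x (0 : Fin d → ℤ) i i = A * x := by unfold HH; simp
        rw [e]
        have i1 : (d : ℝ) ^ 2 * (q d k 3 * (1 + a / (2 * d))) ≤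
            d ^ 2 * ((q d k 2 ^ 2 * x) * (1 + a / (2 * d))) := by gcongr
        have i2 : (d : ℝ) ^ 2 * ((q d k 2 ^ 2 * x) * (1 + a / (2 * d))) + d * (q d k 2 * (A * x))
            = (d * q d k 2) ^ 2 * x * (1 + a / (2 * d) + A / (d * q d k 2)) := by
          field_simp
        have i3 : (d * q d k 2) ^ 2 * x * (1 + a / (2 * d) + A / (d * q d k 2)) ≤
            (d * q d k 2) ^ 2 * x * A := by gcongr
        linarith
    · refine (hterm (q d k 3) (q d k 4) ?_ ?_ (q_nonneg _ _ _) (q_nonneg _ _ _)).trans ?_
      · intro j j' hj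
        unfold wt
        rw [if_pos rfl, card4 hi hj]
      · intro j
        unfold wt
        rw [if_pos rfl, card3a hi]
      · have e : HH A a x (0 : Fin d → ℤ) i i' = 1 + a := by
          unfold HH
          rw [if_neg (fun h => hi h.2), psi_zero]
          field_simp
        rw [e]
        have i1 : (d : ℝ) ^ 2 * (q d k 4 * (1 + a / (2 * d))) ≤
            d ^ 2 * (q d k 2 ^ 2 * (1 + a / (2 * d))) := by gcongr
        have i2 : (d : ℝ) * (q d k 3 * (A * x)) ≤ d * ((q d k 2 ^ 2 * x) * (A * x)) := by
          gcongr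
        have i3 : (d : ℝ) ^ 2 * (q d k 2 ^ 2 * (1 + a / (2 * d))) +
            d * ((q d k 2 ^ 2 * x) * (A * x)) =
            (d * q d k 2) ^ 2 * (1 + (a / (2 * d) + A * x ^ 2 / d)) := by
          field_simp
          ring
        have i4 : (d * q d k 2) ^ 2 * (1 + (a / (2 * d) + A * x ^ 2 / d)) ≤
            (d * q d k 2) ^ 2 * (1 + a) := by gcongr
        linarith
  · have e : HH A a x D i i' = 1 + a / d * psi D := by
      unfold HH; rw [if_neg (fun h => hD h.1)]
    rw [e]
    have e2 : ∀ j j' : Fin d, wt k D i i' j j' * HH A a x (D + un j' - un j) j j' =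
        q d k 2 ^ 2 + q d k 2 ^ 2 * (a / d) * psi (D + un j' - un j) := by
      intro j j'
      have : HH A a x (D + un j' - un j) j j' = 1 + a / d * psi (D + un j' - un j) := by
        unfold HH
        rw [if_neg]
        rintro ⟨h1, rfl⟩
        apply hD
        simpa using h1
      unfold wt
      rw [this, if_neg hD]; ring
    rw [sum_congr rfl fun j _ => sum_congr rfl fun j' _ => e2 j j']
    simp only [sum_add_distrib, sum_const, card_univ, Fintype.card_fin, nsmul_eq_mul, ← mul_sum]
    have hsup := psi_super hd hD hs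
    rw [Finset.sum_comm] at hsup
    have i1 : q d k 2 ^ 2 * (a / d) * ∑ j : Fin d, ∑ j' : Fin d, psi (D + un j' - un j) ≤
        q d k 2 ^ 2 * (a / d) * ((d : ℝ) ^ 2 * psi D) := by gcongr
    nlinarith

theorem second (h : Cond d k A a x) (n : ℕ) : ∀ (v v' : Fin d → ℤ) (i i' : Fin d),
    lev v = lev v' → ∫⁻ N, cn n v i N * cn n v' i' N ∂law d k ≤
      ENNReal.ofReal ((d * q d k 2) ^ (2 * n) * q d k 1 ^ 2 * HH A a x (v' - v) i i') := by
  have hd' : (150 : ℝ) ≤ d := by exact_mod_cast h.hd
  have hd0 : (0 : ℝ) < d := by linarith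
  have hq1 := q_nonneg d k 1
  induction n with
  | zero =>
    intro v v' i i' hl
    simp only [cn, mul_zero, pow_zero, one_mul]
    by_cases hv : v = v'
    · subst hv
      have e1 : ∀ N, ch {(i, false)} v N * ch {(i', false)} v N =
          ch ({(i, false)} ∪ {(i', false)}) v N := fun N => ch_mul _ _ _ _
      simp only [e1]
      rw [ch_int h.hk]
      apply ENNReal.ofReal_le_ofReal
      rw [sub_self]
      by_cases hi : i = i'
      · subst hi
        have e : HH A a x (0 : Fin d → ℤ) i i = A * x := by unfold HH; simp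
        rw [e, union_idempotent, card_singleton]
        have h1 := h.q1x
        have h2 := h.A1
        calc q d k 1 = q d k 1 * 1 := (mul_one _).symm
          _ ≤ q d k 1 * A := by gcongr
          _ = q d k 1 ^ 2 * (A * x) := by
            rw [sq]
            linear_combination (-(q d k 1 * A)) * h1
      · have e : HH A a x (0 : Fin d → ℤ) i i' = 1 + a := by
          unfold HH
          rw [if_neg (fun h => hi h.2), psi_zero]
          field_simp
        have e2 : (({(i, false)} : Finset (Dir d)) ∪ {(i', false)}).card = 2 := by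
          rw [singleton_union, card_pair]
          simpa using hi
        rw [e, e2]
        have h1 := h.h21
        have h2 := h.a0
        nlinarith [sq_nonneg (q d k 1)]
    · rw [indep_two h.hk hv]
      apply ENNReal.ofReal_le_ofReal
      have e : HH A a x (v' - v) i i' = 1 + a / d * psi (v' - v) := by
        unfold HH
        rw [if_neg]
        rintro ⟨h1, -⟩
        exact hv (sub_eq_zero.1 h1).symm
      rw [e, card_singleton, card_singleton, sq]
      have h1 := h.a0
      have h2 := psi_nonneg (v' - v)
      have h3 : 0 ≤ a / d * psi (v' - v) := by positivity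
      nlinarith [mul_nonneg (mul_nonneg hq1 hq1) h3]
  | succ n ih =>
    intro v v' i i' hl
    have hB : 0 ≤ (d * q d k 2) ^ (2 * n) * q d k 1 ^ 2 := by
      have := h.q2
      positivity
    have hexp : ∀ N, cn (n + 1) v i N * cn (n + 1) v' i' N = ∑ j, ∑ j',
        (ch {(i, false), (j, true)} v N * ch {(i', false), (j', true)} v' N) *
        (cn n (v + un j) j N * cn n (v' + un j') j' N) := by
      intro N
      simp only [cn]
      rw [sum_mul_sum]
      refine sum_congr rfl fun j _ => sum_congr rfl fun j' _ => ?_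
      ring
    simp only [hexp]
    have hmeas : ∀ j j', Measurable fun N =>
        (ch {(i, false), (j, true)} v N * ch {(i', false), (j', true)} v' N) *
        (cn n (v + un j) j N * cn n (v' + un j') j' N) := fun j j' =>
      ((ch_meas _ _).mul (ch_meas _ _)).mul ((cn_meas _ _ _).mul (cn_meas _ _ _))
    rw [lintegral_finsetSum univ (f := fun j N => ∑ j',
        (ch {(i, false), (j, true)} v N * ch {(i', false), (j', true)} v' N) *
        (cn n (v + un j) j N * cn n (v' + un j') j' N))
      fun j _ => Finset.measurable_fun_sum _ fun j' _ => hmeas j j']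
    have hterm : ∀ j j', ∫⁻ N, (ch {(i, false), (j, true)} v N * ch {(i', false), (j', true)} v' N) *
        (cn n (v + un j) j N * cn n (v' + un j') j' N) ∂law d k ≤
        ENNReal.ofReal (wt k (v' - v) i i' j j' * ((d * q d k 2) ^ (2 * n) * q d k 1 ^ 2 *
          HH A a x (v' - v + un j' - un j) j j')) := by
      intro j j'
      rw [indep_lev (f := fun N => ch {(i, false), (j, true)} v N * ch {(i', false), (j', true)} v' N)
        (g := fun N => cn n (v + un j) j N * cn n (v' + un j') j' N) (lev v)
        ((ch_meas _ _).mul (ch_meas _ _)) ((cn_meas _ _ _).mul (cn_meas _ _ _))]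
      · have e1 : ∫⁻ N, ch {(i, false), (j, true)} v N * ch {(i', false), (j', true)} v' N
            ∂law d k = ENNReal.ofReal (wt k (v' - v) i i' j j') := by
          by_cases hv : v = v'
          · subst hv
            have e1 : ∀ N, ch {(i, false), (j, true)} v N * ch {(i', false), (j', true)} v N =
              ch ({(i, false), (j, true)} ∪ {(i', false), (j', true)}) v N :=
              fun N => ch_mul _ _ _ _
            simp only [e1]
            rw [ch_int h.hk]
            unfold wt
            rw [sub_self, if_pos rfl]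
          · rw [indep_two h.hk hv, card_pair (by simp), card_pair (by simp)]
            unfold wt
            rw [if_neg]
            intro h1
            exact hv (sub_eq_zero.1 h1).symm
        rw [e1, ENNReal.ofReal_mul (wt_nonneg _ _ _ _ _)]
        gcongr
        have := ih (v + un j) (v' + un j') j j' (by rw [lev_add, lev_add, hl])
        have e2 : v' + un j' - (v + un j) = v' - v + un j' - un j := by abel
        rw [e2] at this
        exact this
      · intro b c hbc
        rw [ch_dep _ _ (hbc v rfl), ch_dep _ _ (hbc v' hl.symm)]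
      · intro b c hbc
        rw [cn_dep n (v + un j) j fun w hw => hbc w (by rw [lev_add] at hw; omega),
          cn_dep n (v' + un j') j' fun w hw => hbc w (by rw [lev_add] at hw; omega)]
    calc ∑ j, ∫⁻ N, ∑ j', (ch {(i, false), (j, true)} v N * ch {(i', false), (j', true)} v' N) *
        (cn n (v + un j) j N * cn n (v' + un j') j' N) ∂law d k
        = ∑ j, ∑ j', ∫⁻ N, (ch {(i, false), (j, true)} v N * ch {(i', false), (j', true)} v' N) *
        (cn n (v + un j) j N * cn n (v' + un j') j' N) ∂law d k := by
          refine sum_congr rfl fun j _ => ?_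
          exact lintegral_finsetSum univ fun j' _ => hmeas j j'
      _ ≤ ∑ j, ∑ j', ENNReal.ofReal (wt k (v' - v) i i' j j' *
          ((d * q d k 2) ^ (2 * n) * q d k 1 ^ 2 * HH A a x (v' - v + un j' - un j) j j')) :=
          sum_le_sum fun j _ => sum_le_sum fun j' _ => hterm j j'
      _ = ENNReal.ofReal (∑ j, ∑ j', wt k (v' - v) i i' j j' *
          ((d * q d k 2) ^ (2 * n) * q d k 1 ^ 2 * HH A a x (v' - v + un j' - un j) j j')) := by
          have hnn : ∀ j j', 0 ≤ wt k (v' - v) i i' j j' *
            ((d * q d k 2) ^ (2 * n) * q d k 1 ^ 2 * HH A a x (v' - v + un j' - un j) j j') :=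
            fun j j' => mul_nonneg (wt_nonneg _ _ _ _ _) (mul_nonneg hB (HH_nonneg h _ _ _))
          rw [ENNReal.ofReal_sum_of_nonneg fun j _ => sum_nonneg fun j' _ => hnn j j']
          exact sum_congr rfl fun j _ =>
            (ENNReal.ofReal_sum_of_nonneg fun j' _ => hnn j j').symm
      _ ≤ _ := by
          apply ENNReal.ofReal_le_ofReal
          have hs : ∑ i, (v' - v) i = 0 := by
            have : ∑ i, (v' - v) i = lev v' - lev v := by
              unfold lev; simp [sum_sub_distrib]
            rw [this, hl, sub_self]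
          have h1 := super h hs i i'
          have h2 : ∑ j, ∑ j', wt k (v' - v) i i' j j' * ((d * q d k 2) ^ (2 * n) *
              q d k 1 ^ 2 * HH A a x (v' - v + un j' - un j) j j') =
              ((d * q d k 2) ^ (2 * n) * q d k 1 ^ 2) * ∑ j, ∑ j', wt k (v' - v) i i' j j' *
                HH A a x (v' - v + un j' - un j) j j' := by
            rw [mul_sum]
            refine sum_congr rfl fun j _ => ?_
            rw [mul_sum]
            exact sum_congr rfl fun j' _ => by ring
          rw [h2]
          calc _ ≤ ((d * q d k 2) ^ (2 * n) * q d k 1 ^ 2) *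
                ((d * q d k 2) ^ 2 * HH A a x (v' - v) i i') := by gcongr
            _ = _ := by ring

end

end Q291.BG
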